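import Pool.Agent.X302.MW.SDefs

/-!
# The Newton-Hodge inequality and threefolds whose Hodge number `h^(3,0)` is exhausted
-/

namespace Pool.Agent.Helper812_WM

universe u v

open Module Pool.Agent.Y143 Pool.Agent.X302.MW

section

variable {Ω : Type u} [Field Ω] {V : Type v} [AddCommGroup V] [Module Ω V]

/-- The subspace `U` is stable under `T`. -/
def IsStable (T : Module.End Ω V) (U : Submodule Ω V) : Prop := ∀ v ∈ U, T v ∈ U

/-- The determinant of an operator. -/
noncomputable def dt (T : Module.End Ω V) : Ω := LinearMap.det T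

/-- The restriction of `T` to a stable subspace. -/
def restr (T : Module.End Ω V) (U : Submodule Ω V) (hU : IsStable T U) : Module.End Ω U :=
  LinearMap.restrict T hU

/-- The determinant of `T` on a stable subspace. -/
noncomputable def detOn (T : Module.End Ω V) (U : Submodule Ω V) (hU : IsStable T U) : Ω :=
  dt (restr T U hU)

/-- The Newton-Hodge inequality: for all subspaces `U` stable under the Frobenius `Φ` and the
monodromy operator `N`, the sum of the slopes of `Φ` on `U` is at least `dim U - h`, that is,
`det(Φ | U) q ^ h / q ^ (dim U)` is integral. -/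
def IsAboveHodge (Φ N : Module.End Ω V) (q : ℕ) (R : ValuationSubring Ω) (h : ℕ) : Prop :=
  ∀ (U : Submodule Ω V) (hU : IsStable Φ U), IsStable N U →
    detOn Φ U hU * (q : Ω) ^ h / (q : Ω) ^ finrank Ω U ∈ R

/-- The number `h` is exhausted by a subspace `U`: it is stable under `Φ` and `N` and contains `W₀`,
the eigenvalues of weight two on `U` satisfy `P`, and the sum of the slopes of `Φ` on `U` is at most
`dim U - h`. -/
def Exhausts [CharZero Ω] (Φ N : Module.End Ω V) (q : ℕ) (R : ValuationSubring Ω) (h : ℕ)
    (W₀ : Submodule Ω V) (P : Ω → Prop) : Prop :=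
  ∃ (U : Submodule Ω V) (hU : IsStable Φ U), IsStable N U ∧ W₀ ≤ U ∧
    (∀ (α : Ω) (v : V), v ∈ U → v ≠ 0 → Φ v = α • v → IsWeilNumber q 2 α → P α) ∧
    ∃ r ∈ R, r * (detOn Φ U hU * (q : Ω) ^ h) = (q : Ω) ^ finrank Ω U

/-- Either `h = 1` and `N^2 ≠ 0`, or the parts of weight at most one exhaust `h`. -/
def LowExhausts (N : Module.End Ω V) (W : ℤ → Submodule Ω V) (h : ℕ) : Prop :=
  (h = 1 ∧ N ^ 2 ≠ 0) ∨ 2 * h ≤ finrank Ω (W 0) + finrank Ω (W 1)

end

variable {Ω : Type u} [Field Ω] [CharZero Ω] {Γ : Type} {n q : ℕ}

/-- The Newton-Hodge inequality for the (Hyodo-Kato) cohomology `H^i` of the generic fibre. Here `h`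
is the Hodge number `h^(0,i) = dim H^i(X_K, O)` and `R` is the valuation ring of `Ω`. -/
def NewtonHodge (X : SemistableModel.{u, v} Ω Γ n q) (R : ValuationSubring Ω) (i h : ℕ) : Prop :=
  IsAboveHodge (X.actV i X.frob) (X.N i) q R h

/-- The multiplicity of the Frobenius eigenvalue `α` on `H^m(Y^(a+1))`. -/
noncomputable def mult (X : SpecialFibre.{u, v} Ω Γ n q) (a : ℕ) (m : ℤ) (α : Ω) : ℕ :=
  finrank Ω (frobPart X a m α)

/-- The multiplicity of the Frobenius eigenvalue `α` on `H^i` of the geometric generic fibre. -/
noncomputable def genMult (X : SemistableModel.{u, v} Ω Γ n q) (i : ℕ) (α : Ω) : ℕ :=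
  finrank Ω ((X.actV i X.frob).maxGenEigenspace α)

/-- The eigenvalue `α` is repeated: it occurs on `H^2` of the components and at least twice on `H^2`
of the double surfaces. -/
def IsRepeated (X : SpecialFibre.{u, v} Ω Γ n q) (α : Ω) : Prop :=
  1 ≤ mult X 0 2 α ∧ 2 ≤ mult X 1 2 α

/-- The Hodge number `h` is exhausted by a part `U` of `H^3` without repeated transcendental
eigenvalues of weight two: `U` is stable under `Φ` and `N`, it contains the part of weight `0`, the
eigenvalues of weight two on `U` are Tate numbers or not repeated, and the sum of the slopes of `Φ`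
on `U` is at most `dim U - h`. -/
def IsExhausted (X : SemistableModel.{u, v} Ω Γ n q) (R : ValuationSubring Ω) (h : ℕ) : Prop :=
  Exhausts (X.actV 3 X.frob) (X.N 3) q R h (X.W 3 0)
    (fun α => IsTateNumber q α ∨ ¬ IsRepeated X.toSpecialFibre α)

/-- The forms of degree three degenerate: `h = 1` and `N^2 ≠ 0`, or the parts of weight at most one
exhaust `h`, or, more generally, `h` is exhausted. -/
def HasDegenerateForms (X : SemistableModel.{u, v} Ω Γ 3 q) (R : ValuationSubring Ω) (h : ℕ) :
    Prop :=
  LowExhausts (X.N 3) (X.W 3) h ∨ IsExhausted X R h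

/-- Known facts on the `ℓ`-adic theory `X` and the `p`-adic theory `X'`: the Frobenius eigenvalues
on the strata are algebraic integers (Deligne, Katz-Messing), the Frobenius has the same rational
characteristic polynomials on `H^2` of the components and of the double surfaces in the two
theories, and the form on `H^1` of the triple curves is nondegenerate on the image of `H^1` of the
double surfaces (Weil). -/
structure IsComparable {Ω' : Type u} [Field Ω'] [CharZero Ω'] {Γ' : Type}
    (X : SpecialFibre.{u, v} Ω Γ 3 q) (X' : SpecialFibre.{u, v} Ω' Γ' 3 q) : Prop where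
  integral : HasIntegralFrobenius X
  integral' : HasIntegralFrobenius X'
  same0 : SameFrobenius X X' 0 2
  same1 : SameFrobenius X X' 1 2
  weil : NondegOnImage (X'.gr 1) (X'.pair 2) (X'.lef 2) 0 (X'.res 1)

/-- The transcendental eigenvalues on `H^2` of the generic fibre have in the first theory at most the
multiplicities of their conjugates in the second. -/
def SameTranscendental {Ω' : Type u} [Field Ω'] [CharZero Ω'] {Γ' : Type}
    (X : SemistableModel.{u, v} Ω Γ 3 q) (X' : SemistableModel.{u, v} Ω' Γ' 3 q) : Prop :=
  ∀ (α : Ω) (α' : Ω'), AreConjugate α α' → ¬ IsTateNumber q α → genMult X 2 α ≤ genMult X' 2 α'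

end Pool.Agent.Helper812_WM
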