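import Mathlib

/-!
# Determinants of restrictions of an endomorphism
-/

namespace Pool.Agent.Helper812_WM

open Module

section det

variable {Ω : Type*} [Field Ω] {P : Type*} [AddCommGroup P] [Module Ω P] {Q : Type*}
  [AddCommGroup Q] [Module Ω Q]

/-- The determinant is multiplicative for a surjective equivariant map. -/
lemma det_of_surj [FiniteDimensional Ω P] (f : P →ₗ[Ω] Q) (hf : Function.Surjective f)
    (T : Module.End Ω P) (T' : Module.End Ω Q) (h : ∀ x, f (T x) = T' (f x))
    (hk : ∀ x ∈ LinearMap.ker f, T x ∈ LinearMap.ker f) :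
    LinearMap.det T = LinearMap.det (T.restrict hk) * LinearMap.det T' := by
  have h1 := LinearMap.det_eq_det_mul_det (LinearMap.ker f) T (fun x hx => hk x hx)
  rw [h1]
  congr 1
  let e := f.quotKerEquivOfSurjective hf
  have h2 := LinearMap.det_conj ((LinearMap.ker f).mapQ (LinearMap.ker f) T
    (fun x hx => hk x hx)) e
  rw [← h2]
  congr 1
  apply LinearMap.ext
  intro y
  obtain ⟨x, rfl⟩ := hf y
  have h3 : e.symm (f x) = (LinearMap.ker f).mkQ x := by
    rw [LinearEquiv.symm_apply_eq]
    rfl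
  rw [LinearMap.comp_apply, LinearMap.comp_apply, LinearEquiv.coe_coe, LinearEquiv.coe_coe, h3]
  rw [Submodule.mkQ_apply, Submodule.mapQ_apply]
  exact h x

/-- Two equal subspaces, seen in different ways. -/
lemma det_restrict_eq {A : Submodule Ω P} (T : Module.End Ω P) (hA : ∀ x ∈ A, T x ∈ A)
    (g : Q →ₗ[Ω] P) (hg : Function.Injective g) (hgA : LinearMap.range g = A)
    (S : Module.End Ω Q) (h : ∀ x, g (S x) = T (g x)) :
    LinearMap.det (T.restrict hA) = LinearMap.det S := by
  let g' : Q →ₗ[Ω] A := g.codRestrict A (fun x => by rw [← hgA]; exact ⟨x, rfl⟩)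
  have hb : Function.Bijective g' := by
    constructor
    · intro x y hxy
      exact hg (congrArg Subtype.val hxy)
    · rintro ⟨y, hy⟩
      rw [← hgA] at hy
      obtain ⟨x, rfl⟩ := hy
      exact ⟨x, rfl⟩
  let e := LinearEquiv.ofBijective g' hb
  rw [← LinearMap.det_conj S e]
  congr 1
  apply LinearMap.ext
  intro y
  obtain ⟨x, rfl⟩ := e.surjective y
  rw [LinearMap.comp_apply, LinearMap.comp_apply, LinearEquiv.coe_coe, LinearEquiv.coe_coe,
    LinearEquiv.symm_apply_apply]
  apply Subtype.ext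
  exact (h x).symm

/-- The determinant on `U` is the product of the determinants on `A ≤ U` and on the image of `U`
under a map with kernel `A`. -/
lemma det_sub [FiniteDimensional Ω P] (T : Module.End Ω P) {A U : Submodule Ω P}
    (hA : ∀ x ∈ A, T x ∈ A) (hU : ∀ x ∈ U, T x ∈ U) (hAU : A ≤ U) (f : U →ₗ[Ω] Q)
    (hf : Function.Surjective f) (hk : ∀ x : U, f x = 0 ↔ (x : P) ∈ A) (T' : Module.End Ω Q)
    (h : ∀ x : U, f (T.restrict hU x) = T' (f x)) :
    LinearMap.det (T.restrict hU) = LinearMap.det (T.restrict hA) * LinearMap.det T' := by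
  have hk' : ∀ x ∈ LinearMap.ker f, T.restrict hU x ∈ LinearMap.ker f := by
    intro x hx
    rw [LinearMap.mem_ker] at hx ⊢
    rw [h, hx, map_zero]
  rw [det_of_surj f hf (T.restrict hU) T' h hk']
  congr 1
  symm
  refine det_restrict_eq T hA (U.subtype ∘ₗ (LinearMap.ker f).subtype) ?_ ?_ _ ?_
  · rw [LinearMap.coe_comp]
    exact (Submodule.subtype_injective U).comp (Submodule.subtype_injective _)
  · apply le_antisymm
    · rintro _ ⟨x, rfl⟩
      exact (hk x).1 x.2
    · intro x hx
      exact ⟨⟨⟨x, hAU hx⟩, (hk _).2 hx⟩, rfl⟩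
  · intro x
    rfl

lemma finrank_sub [FiniteDimensional Ω P] {A U : Submodule Ω P} (hAU : A ≤ U) (f : U →ₗ[Ω] Q)
    (hf : Function.Surjective f) (hk : ∀ x : U, f x = 0 ↔ (x : P) ∈ A) :
    finrank Ω U = finrank Ω A + finrank Ω Q := by
  have h1 := LinearMap.finrank_range_add_finrank_ker f
  rw [LinearMap.range_eq_top.2 hf, finrank_top] at h1
  have h2 : LinearMap.ker f = A.comap U.subtype := by
    ext x
    rw [LinearMap.mem_ker, hk]
    rfl
  have h3 : finrank Ω (LinearMap.ker f) = finrank Ω A := by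
    rw [h2]
    exact (Submodule.comapSubtypeEquivOfLe hAU).finrank_eq
  omega

/-- Adding an eigenvector modulo `A`. -/
lemma det_add_span [FiniteDimensional Ω P] (T : Module.End Ω P) {A : Submodule Ω P}
    (hA : ∀ x ∈ A, T x ∈ A) {v : P} {α : Ω} (hv : v ∉ A) (hTv : T v - α • v ∈ A) :
    ∃ hU : ∀ x ∈ A ⊔ Submodule.span Ω {v}, T x ∈ A ⊔ Submodule.span Ω {v},
      LinearMap.det (T.restrict hU) = LinearMap.det (T.restrict hA) * α ∧
        finrank Ω (A ⊔ Submodule.span Ω {v} : Submodule Ω P) = finrank Ω A + 1 := by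
  have hvU : v ∈ A ⊔ Submodule.span Ω {v} :=
    Submodule.mem_sup_right (Submodule.mem_span_singleton_self v)
  have hU : ∀ x ∈ A ⊔ Submodule.span Ω {v}, T x ∈ A ⊔ Submodule.span Ω {v} := by
    intro x hx
    obtain ⟨a, ha, b, hb, rfl⟩ := Submodule.mem_sup.1 hx
    obtain ⟨c, rfl⟩ := Submodule.mem_span_singleton.1 hb
    rw [map_add, map_smul]
    refine Submodule.add_mem _ (Submodule.mem_sup_left (hA a ha)) (Submodule.smul_mem _ c ?_)
    have : T v = (T v - α • v) + α • v := by abel
    rw [this]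
    exact Submodule.add_mem _ (Submodule.mem_sup_left hTv) (Submodule.smul_mem _ α hvU)
  refine ⟨hU, ?_⟩
  let D : Submodule Ω (P ⧸ A) := Submodule.span Ω {A.mkQ v}
  let f : (A ⊔ Submodule.span Ω {v} : Submodule Ω P) →ₗ[Ω] D :=
    (A.mkQ ∘ₗ (A ⊔ Submodule.span Ω {v} : Submodule Ω P).subtype).codRestrict D (by
      intro x
      obtain ⟨a, ha, b, hb, hx⟩ := Submodule.mem_sup.1 x.2
      obtain ⟨c, rfl⟩ := Submodule.mem_span_singleton.1 hb
      show A.mkQ (x : P) ∈ D
      rw [← hx, map_add, map_smul, show A.mkQ a = 0 from (Submodule.Quotient.mk_eq_zero A).2 ha,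
        zero_add]
      exact Submodule.smul_mem _ _ (Submodule.mem_span_singleton_self _))
  have hfv : ∀ x, (f x : P ⧸ A) = A.mkQ (x : P) := fun x => rfl
  have hf : Function.Surjective f := by
    rintro ⟨y, hy⟩
    obtain ⟨c, rfl⟩ := Submodule.mem_span_singleton.1 hy
    refine ⟨⟨c • v, Submodule.smul_mem _ c hvU⟩, ?_⟩
    apply Subtype.ext
    rw [hfv]
    show A.mkQ (c • v) = _
    rw [map_smul]
  have hk : ∀ x : (A ⊔ Submodule.span Ω {v} : Submodule Ω P), f x = 0 ↔ (x : P) ∈ A := by
    intro x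
    rw [← Submodule.Quotient.mk_eq_zero A, ← Submodule.mkQ_apply, ← hfv]
    constructor
    · intro h
      rw [h]
      rfl
    · intro h
      exact Subtype.ext h
  have hne : A.mkQ v ≠ 0 := by
    intro h
    exact hv ((Submodule.Quotient.mk_eq_zero A).1 h)
  have hD : finrank Ω D = 1 := finrank_span_singleton hne
  constructor
  · rw [det_sub T hA hU le_sup_left f hf hk (α • LinearMap.id)]
    · rw [LinearMap.det_smul, hD, pow_one, LinearMap.det_id, mul_one]
    · intro x
      apply Subtype.ext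
      rw [hfv]
      show A.mkQ (T (x : P)) = α • (f x : P ⧸ A)
      rw [hfv, ← map_smul, Submodule.mkQ_apply, Submodule.mkQ_apply, Submodule.Quotient.eq]
      obtain ⟨a, ha, b, hb, hx⟩ := Submodule.mem_sup.1 x.2
      obtain ⟨c, rfl⟩ := Submodule.mem_span_singleton.1 hb
      rw [← hx, map_add, map_smul, smul_add]
      have : T a + c • T v - (α • a + α • c • v) = (T a - α • a) + c • (T v - α • v) := by
        rw [smul_sub, smul_comm α c v]
        abel
      rw [this]
      exact A.add_mem (A.sub_mem (hA a ha) (A.smul_mem _ ha)) (A.smul_mem _ hTv)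
  · rw [finrank_sub le_sup_left f hf hk, hD]

/-- The determinant of a similitude of a nondegenerate form. -/
lemma det_sq_of_form [FiniteDimensional Ω P] (ψ : P →ₗ[Ω] P →ₗ[Ω] Ω)
    (hψ : ∀ x, (∀ y, ψ x y = 0) → x = 0) (T : Module.End Ω P) (c : Ω)
    (h : ∀ x y, ψ (T x) (T y) = c * ψ x y) : LinearMap.det T ^ 2 = c ^ finrank Ω P := by
  have hinj : Function.Injective ψ := by
    rw [← LinearMap.ker_eq_bot, LinearMap.ker_eq_bot']
    intro x hx
    apply hψ
    intro y
    rw [hx]
    rfl
  let e : P ≃ₗ[Ω] Dual Ω P := LinearEquiv.ofInjectiveOfFinrankEq ψ hinj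
    (Subspace.dual_finrank_eq).symm
  have he : ∀ x, e x = ψ x := fun x => rfl
  have h1 : T.dualMap ∘ₗ ((e : P →ₗ[Ω] Dual Ω P) ∘ₗ T ∘ₗ (e.symm : Dual Ω P →ₗ[Ω] P)) =
      c • LinearMap.id := by
    apply LinearMap.ext
    intro φ
    obtain ⟨x, rfl⟩ := e.surjective φ
    apply LinearMap.ext
    intro y
    rw [LinearMap.comp_apply, LinearMap.comp_apply, LinearMap.comp_apply, LinearEquiv.coe_coe,
      LinearEquiv.coe_coe, LinearEquiv.symm_apply_apply, he]
    show ψ (T x) (T y) = (c • e x) y
    rw [h, LinearMap.smul_apply, he, smul_eq_mul]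
  have h2 := congrArg LinearMap.det h1
  rw [LinearMap.det_comp, LinearMap.det_conj, LinearMap.det_dualMap, LinearMap.det_smul,
    LinearMap.det_id, mul_one, Subspace.dual_finrank_eq] at h2
  rw [← h2, sq]

/-- A space with a nondegenerate alternating form has even dimension. -/
lemma even_of_form [CharZero Ω] [FiniteDimensional Ω P] (ψ : P →ₗ[Ω] P →ₗ[Ω] Ω)
    (hψ : ∀ x, (∀ y, ψ x y = 0) → x = 0) (h : ∀ x y, ψ x y = -ψ y x) : Even (finrank Ω P) := by
  classical
  let b := Module.finBasis Ω P
  let B : LinearMap.BilinForm Ω P := ψ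
  have hB : LinearMap.BilinForm.Nondegenerate B := by
    constructor
    · intro x hx
      exact hψ x hx
    · intro y hy
      apply hψ y
      intro x
      rw [h]
      have := hy x
      rw [show ψ x y = 0 from this, neg_zero]
  have hdet := (LinearMap.BilinForm.nondegenerate_iff_det_ne_zero (B := B) b).1 hB
  have h1 : (LinearMap.BilinForm.toMatrix b B).transpose = -(LinearMap.BilinForm.toMatrix b B) := by
    ext i j
    rw [Matrix.transpose_apply, Matrix.neg_apply, LinearMap.BilinForm.toMatrix_apply,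
      LinearMap.BilinForm.toMatrix_apply]
    exact h _ _
  have h2 := congrArg Matrix.det h1
  rw [Matrix.det_transpose, Matrix.det_neg, Fintype.card_fin] at h2
  by_contra hodd
  rw [Nat.not_even_iff_odd] at hodd
  rw [hodd.neg_one_pow] at h2
  apply hdet
  have h3 : (2 : Ω) * (LinearMap.BilinForm.toMatrix b B).det = 0 := by
    linear_combination h2
  exact (mul_eq_zero.1 h3).resolve_left two_ne_zero

/-- The determinant is a product of eigenvalues. -/
lemma det_mem_of_eigen [IsAlgClosed Ω] [FiniteDimensional Ω P] (T : Module.End Ω P)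
    (M : Submonoid Ω) (h : ∀ (α : Ω) (v : P), v ≠ 0 → T v = α • v → α ∈ M) :
    LinearMap.det T ∈ M := by
  classical
  let b := Module.finBasis Ω P
  have h1 : LinearMap.det T = (LinearMap.toMatrix b b T).det := (LinearMap.det_toMatrix b T).symm
  rw [h1, Matrix.det_eq_prod_roots_charpoly]
  apply Submonoid.multiset_prod_mem
  intro α hα
  rw [LinearMap.charpoly_toMatrix] at hα
  have h2 : T.HasEigenvalue α := by
    rw [Module.End.hasEigenvalue_iff_isRoot_charpoly]
    exact Polynomial.isRoot_of_mem_roots hα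
  obtain ⟨v, hv⟩ := h2.exists_hasEigenvector
  exact h α v hv.2 hv.apply_eq_smul

end det

end Pool.Agent.Helper812_WM
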