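import Pool.Agent.Helper812_WM.Low
import Pool.Agent.Helper812_WM.Defs

/-!
# No eigenvalues of weight two and slope less than one
-/

namespace Pool.Agent.Helper812_WM

universe u v

open Module Pool.Agent.Y143 Pool.Agent.X302.MW

section val

variable {Ω : Type*} [Field Ω] (R : ValuationSubring Ω)

lemma mem_of_sq {x : Ω} (h : x ^ 2 ∈ R) : x ∈ R := by
  rcases R.mem_or_inv_mem x with h1 | h1
  · exact h1
  · by_cases hx : x = 0
    · rw [hx]; exact R.zero_mem
    · have : x = x ^ 2 * x⁻¹ := by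
        field_simp
      rw [this]
      exact R.mul_mem _ _ h h1

/-- The weight of a Weil number is unique. -/
lemma weil_unique {Ω : Type u} [Field Ω] [CharZero Ω] {q : ℕ} (hq : 1 < q) {w w' : ℤ} {α : Ω}
    (h : IsWeilNumber q w α) (h' : IsWeilNumber q w' α) : w = w' := by
  have h1 : (minpoly ℚ α).degree ≠ 0 := (minpoly.degree_pos h.1.isIntegral).ne'
  obtain ⟨z, hz⟩ := IsAlgClosed.exists_aeval_eq_zero ℂ (minpoly ℚ α) h1
  have h2 := h.2 z hz
  rw [h'.2 z hz] at h2
  have hq' : (1 : ℝ) < q := by exact_mod_cast hq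
  have h3 := (Real.rpow_right_inj (by linarith) hq'.ne').1 h2
  have h4 : (w' : ℝ) = w := by linarith
  exact_mod_cast h4.symm

end val

variable {Ω : Type u} [Field Ω] [CharZero Ω] {Γ : Type} {q : ℕ}
  (X : SemistableModel.{u, v} Ω Γ 3 q)

/-- The eigenvalues on `W_w` have weight at most `w`. -/
lemma weight_le {n : ℕ} (X : SemistableModel.{u, v} Ω Γ n q) (i : ℕ) (w : ℤ) {α : Ω} {v : X.V i}
    (hv : v ∈ X.W i w) (hv0 : v ≠ 0) (h : X.actV i X.frob v = α • v) :
    ∃ w' ≤ w, IsWeilNumber q w' α := by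
  obtain ⟨w0, hw0⟩ := X.W_bot i
  have key : ∀ k : ℕ, ∀ w : ℤ, w ≤ w0 + k → v ∈ X.W i w → ∃ w' ≤ w, IsWeilNumber q w' α := by
    intro k
    induction k with
    | zero =>
      intro w hw hvw
      have h1 := X.W_mono i hw hvw
      rw [Nat.cast_zero, add_zero, hw0, Submodule.mem_bot] at h1
      exact absurd h1 hv0
    | succ k ih =>
      intro w hw hvw
      by_cases hc : v ∈ X.W i (w - 1)
      · obtain ⟨w', hw', h'⟩ := ih (w - 1) (by push_cast at hw; omega) hc
        exact ⟨w', by omega, h'⟩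
      · obtain ⟨y, hy, hy0, hyα⟩ := eigen_of_graded X i w hvw hc (by
          rw [h, sub_self]; exact Submodule.zero_mem _)
        exact ⟨w, le_rfl, X.weil_E₁ hy.1 hy0 hyα⟩
  exact key (w - w0).toNat w (by omega) hv

/-- The case in which the weights at most one suffice. -/
theorem exhausted_of_W [IsAlgClosed Ω] (hq : 1 < q) (hI : HasIntegralFrobenius X.toSpecialFibre)
    (R : ValuationSubring Ω)
    (hP : NondegOnImage (X.gr 1) (X.pair 2) (X.lef 2) 0 (X.res 1)) {h : ℕ}
    (hW : 2 * h ≤ finrank Ω (X.W 3 0) + finrank Ω (X.W 3 1)) : IsExhausted X R h := by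
  have hq0 : (q : Ω) ≠ 0 := Nat.cast_ne_zero.2 X.q_ne
  have hqR : (q : Ω) ∈ R := natCast_mem R q
  refine ⟨X.W 3 1, W_stable X 3 1, ?_, X.W_mono 3 (by norm_num), ?_, ?_⟩
  · intro v hv
    exact X.W_mono 3 (by norm_num) (W_N X 3 1 v hv)
  · intro α v hv hv0 hα hw
    obtain ⟨w', hw', h'⟩ := weight_le X 3 1 hv hv0 hα
    have := weil_unique hq h' hw
    omega
  · change ∃ r ∈ R, r * (LinearMap.det ((X.actV 3 X.frob).restrict (W_stable X 3 1)) *
      (q : Ω) ^ h) = (q : Ω) ^ finrank Ω (X.W 3 1)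
    obtain ⟨hd1, hd2⟩ := det_W0 X hI R
    have hd := det_W1 X hP
    have hf := finrank_W1 X
    set d0 := LinearMap.det ((X.actV 3 X.frob).restrict (W_stable X 3 0)) with hd0
    set d := LinearMap.det ((X.actV 3 X.frob).restrict (W_stable X 3 1)) with hdd
    have hne0 : d0 ≠ 0 := by
      -- product of eigenvalues, all nonzero
      have : d0 ∈ (nonZeroDivisors Ω) := by
        rw [hd0]
        apply det_mem_of_eigen
        intro α v hv hα
        rw [mem_nonZeroDivisors_iff_ne_zero]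
        rintro rfl
        obtain ⟨-, k, hk, hk'⟩ := eigen_zero X hI 3 (α := 0) v.2 (fun h => hv (Subtype.ext h))
          (congrArg Subtype.val hα)
        rw [zero_pow hk.ne'] at hk'
        exact zero_ne_one hk'
      exact mem_nonZeroDivisors_iff_ne_zero.1 this
    have hne : d ≠ 0 := by
      intro h0
      rw [h0, zero_pow two_ne_zero] at hd
      exact (mul_ne_zero (pow_ne_zero _ hne0) (pow_ne_zero _ hq0)) hd.symm
    refine ⟨(q : Ω) ^ finrank Ω (X.W 3 1) / (d * (q : Ω) ^ h), ?_, ?_⟩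
    · apply mem_of_sq
      have e : ((q : Ω) ^ finrank Ω (X.W 3 1) / (d * (q : Ω) ^ h)) ^ 2 =
          d0⁻¹ ^ 2 * (q : Ω) ^ (finrank Ω (X.W 3 0) + finrank Ω (X.W 3 1) - 2 * h) := by
        rw [div_pow, mul_pow, hd, div_eq_iff (mul_ne_zero (mul_ne_zero (pow_ne_zero _ hne0)
          (pow_ne_zero _ hq0)) (pow_ne_zero _ (pow_ne_zero _ hq0)))]
        have e2 : ((q : Ω) ^ finrank Ω (X.W 3 1)) ^ 2 =
            (q : Ω) ^ (finrank Ω (X.W 3 0) + finrank Ω (X.W 3 1) - 2 * h) *
              ((q : Ω) ^ finrank Ω (E2 X 2 1) * ((q : Ω) ^ h) ^ 2) := by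
          rw [← pow_mul, ← pow_mul, ← pow_add, ← pow_add]
          congr 1
          omega
        rw [e2]
        field_simp
      rw [e]
      exact R.mul_mem _ _ (pow_mem hd2 _) (pow_mem hqR _)
    · rw [div_mul_cancel₀]
      exact mul_ne_zero hne (pow_ne_zero _ hq0)

/-- The Newton-Hodge inequality excludes the other eigenvalues of weight two and slope less than
one. -/
theorem no_weight_two {R : ValuationSubring Ω} {h : ℕ}
    (hNH : NewtonHodge X R 3 h) (hE : IsExhausted X R h) {α : Ω} (hα : ¬ IsTateNumber q α)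
    (hm : IsRepeated X.toSpecialFibre α) (hR : α / q ∉ R) {v : X.V 3} (hv : v ∈ X.W 3 2)
    (hv' : v ∉ X.W 3 1) (hvα : X.actV 3 X.frob v - α • v ∈ X.W 3 1) : False := by
  have hq0 : (q : Ω) ≠ 0 := Nat.cast_ne_zero.2 X.q_ne
  obtain ⟨U, hU, hUN, hU0, hUe, r, hr, hrU'⟩ := hE
  have hrU : r * (LinearMap.det ((X.actV 3 X.frob).restrict hU) * (q : Ω) ^ h) =
      (q : Ω) ^ finrank Ω U := hrU'
  -- the weight of `α`
  obtain ⟨y, hy, hy0, hyα⟩ := eigen_of_graded X 3 2 hv hv' hvα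
  have hw : IsWeilNumber q 2 α := X.weil_E₁ hy.1 hy0 hyα
  -- an eigenvector
  obtain ⟨u, hu, hu0, huα⟩ := exists_eigen (S := X.actV 3 X.frob) (α := α) (Z := X.W 3 2)
    (B := X.W 3 1) (X.W_mono 3 (by norm_num)) (W_stable X 3 1) hv hv' hvα
  have huU : u ∉ U := by
    intro hc
    rcases hUe α u hc hu0 huα hw with h1 | h1
    · exact hα h1
    · exact h1 hm
  obtain ⟨hU', hdet, hfin⟩ := det_add_span (X.actV 3 X.frob) hU huU (α := α) (by
    rw [huα, sub_self]; exact Submodule.zero_mem _)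
  have hN' : ∀ v ∈ U ⊔ Submodule.span Ω {u}, X.N 3 v ∈ U ⊔ Submodule.span Ω {u} := by
    intro x hx
    obtain ⟨a, ha, b, hb, rfl⟩ := Submodule.mem_sup.1 hx
    obtain ⟨c, rfl⟩ := Submodule.mem_span_singleton.1 hb
    rw [map_add, map_smul]
    refine Submodule.mem_sup_left (U.add_mem (hUN a ha) (U.smul_mem _ (hU0 ?_)))
    have := W_N X 3 2 u hu
    rwa [show (2 : ℤ) - 2 = 0 by norm_num] at this
  have h1 : LinearMap.det ((X.actV 3 X.frob).restrict hU') * (q : Ω) ^ h /
      (q : Ω) ^ finrank Ω (U ⊔ Submodule.span Ω {u} : Submodule Ω (X.V 3)) ∈ R := hNH _ hU' hN'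
  rw [hdet, hfin] at h1
  apply hR
  have h2 := R.mul_mem _ _ hr h1
  have h3 : r * (LinearMap.det ((X.actV 3 X.frob).restrict hU) * α * (q : Ω) ^ h /
      (q : Ω) ^ (finrank Ω U + 1)) = α / q := by
    have hqU : (q : Ω) ^ finrank Ω U ≠ 0 := pow_ne_zero _ hq0
    rw [pow_succ]
    calc r * (LinearMap.det ((X.actV 3 X.frob).restrict hU) * α * (q : Ω) ^ h /
      ((q : Ω) ^ finrank Ω U * q)) = (r * (LinearMap.det ((X.actV 3 X.frob).restrict hU) *
        (q : Ω) ^ h)) / (q : Ω) ^ finrank Ω U * (α / q) := by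
          field_simp
      _ = α / q := by rw [hrU, div_self hqU, one_mul]
  rwa [h3] at h2

end Pool.Agent.Helper812_WM
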