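import Pool.Agent.X302.MW.Three
import Pool.Agent.Helper812_WM.Det

/-!
# The graded pieces of the weight filtration: dimensions and determinants
-/

namespace Pool.Agent.Helper812_WM

universe u v

open Module Pool.Agent.Y143 Pool.Agent.X302.MW

variable {Ω : Type u} [Field Ω] [CharZero Ω] {Γ : Type} {n q : ℕ}
  (X : SemistableModel.{u, v} Ω Γ n q)

/-- The map from `W_w` to the quotient by the coboundaries. -/
lemma exists_gmap (i : ℕ) (w : ℤ) :
    ∃ π : X.W i w →ₗ[Ω] (X.C ⧸ X.coboundaries (i - w) w),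
      ∀ (v : X.W i w) (x : X.C), ((v : X.V i), x) ∈ X.sp i w →
        π v = (X.coboundaries (i - w) w).mkQ x := by
  let p : X.sp i w →ₗ[Ω] X.W i w :=
    (LinearMap.fst Ω (X.V i) X.C ∘ₗ (X.sp i w).subtype).codRestrict (X.W i w)
      (fun x => (X.sp_mem i w _ _ x.2).1)
  have hp : Function.Surjective p := by
    rintro ⟨v, hv⟩
    obtain ⟨x, hx⟩ := X.sp_left i w v hv
    exact ⟨⟨(v, x), hx⟩, rfl⟩
  obtain ⟨s, hs⟩ := p.exists_rightInverse_of_surjective (LinearMap.range_eq_top.2 hp)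
  refine ⟨(X.coboundaries (i - w) w).mkQ ∘ₗ LinearMap.snd Ω (X.V i) X.C ∘ₗ
    (X.sp i w).subtype ∘ₗ s, fun v x hx => ?_⟩
  have h1 : ((s v : X.V i × X.C)).1 = v := congrArg Subtype.val (LinearMap.congr_fun hs v)
  have h2 : ((0 : X.V i), ((s v : X.V i × X.C)).2 - x) ∈ X.sp i w := by
    have h3 := Submodule.sub_mem _ (s v).2 hx
    have h4 : (s v : X.V i × X.C) - ((v : X.V i), x) = (0, ((s v : X.V i × X.C)).2 - x) := by
      ext
      · rw [Prod.fst_sub, h1, sub_self]
      · rfl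
    rwa [h4] at h3
  have h3 := (X.sp_ker i w _ _ h2).1 (Submodule.zero_mem _)
  show (X.coboundaries (i - w) w).mkQ ((s v : X.V i × X.C)).2 = _
  rw [Submodule.mkQ_apply, Submodule.mkQ_apply, Submodule.Quotient.eq]
  exact h3

/-- The map from `W_w` to the quotient by the coboundaries. -/
noncomputable def gmap (i : ℕ) (w : ℤ) : X.W i w →ₗ[Ω] (X.C ⧸ X.coboundaries (i - w) w) :=
  (exists_gmap X i w).choose

lemma gmap_eq (i : ℕ) (w : ℤ) (v : X.W i w) {x : X.C} (h : ((v : X.V i), x) ∈ X.sp i w) :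
    gmap X i w v = (X.coboundaries (i - w) w).mkQ x := (exists_gmap X i w).choose_spec v x h

lemma gmap_zero (i : ℕ) (w : ℤ) (v : X.W i w) :
    gmap X i w v = 0 ↔ (v : X.V i) ∈ X.W i (w - 1) := by
  obtain ⟨x, hx⟩ := X.sp_left i w v v.2
  rw [gmap_eq X i w v hx, X.sp_ker i w _ _ hx, Submodule.mkQ_apply, Submodule.Quotient.mk_eq_zero]

lemma gmap_mem (i : ℕ) (w : ℤ) (v : X.W i w) :
    gmap X i w v ∈ (X.cocycles (i - w) w).map (X.coboundaries (i - w) w).mkQ := by
  obtain ⟨x, hx⟩ := X.sp_left i w v v.2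
  rw [gmap_eq X i w v hx]
  exact ⟨x, (X.sp_mem i w _ _ hx).2, rfl⟩

lemma gmap_surj (i : ℕ) (w : ℤ) {x : X.C} (hx : x ∈ X.cocycles (i - w) w) :
    ∃ v : X.W i w, ((v : X.V i), x) ∈ X.sp i w ∧
      gmap X i w v = (X.coboundaries (i - w) w).mkQ x := by
  obtain ⟨v, hv⟩ := X.sp_right i w x hx
  exact ⟨⟨v, (X.sp_mem i w _ _ hv).1⟩, hv, gmap_eq X i w _ hv⟩

lemma W_stable (i : ℕ) (w : ℤ) : ∀ v ∈ X.W i w, X.actV i X.frob v ∈ X.W i w := by
  intro v hv
  obtain ⟨x, hx⟩ := X.sp_left i w v hv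
  exact (X.sp_mem i w _ _ (X.sp_act i w v x X.frob hx)).1

lemma W_N (i : ℕ) (w : ℤ) : ∀ v ∈ X.W i w, X.N i v ∈ X.W i (w - 2) := by
  intro v hv
  obtain ⟨x, hx⟩ := X.sp_left i w v hv
  exact (X.sp_mem i (w - 2) _ _ (X.sp_N i w v x hx)).1

lemma B_stable (r w : ℤ) : ∀ x ∈ X.coboundaries r w, X.actC r X.frob x ∈ X.coboundaries r w :=
  fun _ hx => X.actC_bd r w X.frob hx

lemma Z_stable (r w : ℤ) : ∀ x ∈ X.cocycles r w, X.actC r X.frob x ∈ X.cocycles r w :=
  fun _ hx => zc_stable X r w hx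

/-- The Frobenius on the quotient by the coboundaries. -/
noncomputable def qact (r w : ℤ) : Module.End Ω (X.C ⧸ X.coboundaries r w) :=
  (X.coboundaries r w).mapQ (X.coboundaries r w) (X.actC r X.frob) (B_stable X r w)

lemma qact_mkQ (r w : ℤ) (x : X.C) :
    qact X r w ((X.coboundaries r w).mkQ x) = (X.coboundaries r w).mkQ (X.actC r X.frob x) := by
  unfold qact
  rw [Submodule.mkQ_apply, Submodule.mapQ_apply, Submodule.mkQ_apply]

lemma gmap_act (i : ℕ) (w : ℤ) (v : X.W i w) :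
    gmap X i w ((X.actV i X.frob).restrict (W_stable X i w) v) =
      qact X (i - w) w (gmap X i w v) := by
  obtain ⟨x, hx⟩ := X.sp_left i w v v.2
  rw [gmap_eq X i w v hx, qact_mkQ]
  apply gmap_eq
  exact X.sp_act i w v x X.frob hx

/-- The `E_2` term. -/
noncomputable abbrev E2 (r w : ℤ) : Submodule Ω (X.C ⧸ X.coboundaries r w) :=
  (X.cocycles r w).map (X.coboundaries r w).mkQ

lemma E2_stable (r w : ℤ) : ∀ x ∈ E2 X r w, qact X r w x ∈ E2 X r w := by
  rintro _ ⟨x, hx, rfl⟩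
  rw [qact_mkQ]
  exact ⟨_, Z_stable X r w x hx, rfl⟩

/-- The Frobenius on the `E_2` term. -/
noncomputable def eact (r w : ℤ) : Module.End Ω (E2 X r w) :=
  (qact X r w).restrict (E2_stable X r w)

/-- The map from `W_w` to the `E_2` term. -/
noncomputable def emap (i : ℕ) (w : ℤ) : X.W i w →ₗ[Ω] E2 X (i - w) w :=
  (gmap X i w).codRestrict _ (gmap_mem X i w)

lemma emap_surj (i : ℕ) (w : ℤ) : Function.Surjective (emap X i w) := by
  rintro ⟨_, x, hx, rfl⟩
  obtain ⟨v, -, hv⟩ := gmap_surj X i w hx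
  exact ⟨v, Subtype.ext hv⟩

lemma emap_zero (i : ℕ) (w : ℤ) (v : X.W i w) :
    emap X i w v = 0 ↔ (v : X.V i) ∈ X.W i (w - 1) := by
  rw [← gmap_zero]
  constructor
  · intro h
    exact congrArg Subtype.val h
  · intro h
    exact Subtype.ext h

/-- The map from the cocycles to the `E_2` term. -/
noncomputable def zmap (r w : ℤ) : X.cocycles r w →ₗ[Ω] E2 X r w :=
  ((X.coboundaries r w).mkQ ∘ₗ (X.cocycles r w).subtype).codRestrict _
    (fun x => ⟨x, x.2, rfl⟩)

lemma zmap_surj (r w : ℤ) : Function.Surjective (zmap X r w) := by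
  rintro ⟨_, x, hx, rfl⟩
  exact ⟨⟨x, hx⟩, rfl⟩

lemma zmap_zero (r w : ℤ) (x : X.cocycles r w) :
    zmap X r w x = 0 ↔ (x : X.C) ∈ X.coboundaries r w := by
  rw [← Submodule.Quotient.mk_eq_zero (X.coboundaries r w)]
  constructor
  · intro h
    exact congrArg Subtype.val h
  · intro h
    exact Subtype.ext h

/-! ### Finiteness -/

lemma finite_W (i : ℕ) (w : ℤ) : Module.Finite Ω (X.W i w) := by
  obtain ⟨w0, hw0⟩ := X.W_bot i
  have key : ∀ k : ℕ, Module.Finite Ω (X.W i (w0 + k)) := by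
    intro k
    induction k with
    | zero =>
      rw [Nat.cast_zero, add_zero, hw0]
      infer_instance
    | succ k ih =>
      have e : w0 + ((k + 1 : ℕ) : ℤ) - 1 = w0 + k := by push_cast; ring
      constructor
      apply Submodule.fg_of_fg_map_of_fg_inf_ker (gmap X i (w0 + ((k + 1 : ℕ) : ℤ)))
      · exact (IsNoetherian.noetherian _)
      · rw [top_inf_eq]
        have h1 : LinearMap.ker (gmap X i (w0 + ((k + 1 : ℕ) : ℤ))) =
            (X.W i (w0 + k)).comap (X.W i (w0 + ((k + 1 : ℕ) : ℤ))).subtype := by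
          ext x
          rw [LinearMap.mem_ker, gmap_zero, e]
          rfl
        rw [h1]
        have hle : X.W i (w0 + k) ≤ X.W i (w0 + ((k + 1 : ℕ) : ℤ)) :=
          X.W_mono i (by push_cast; omega)
        have := Module.Finite.equiv (Submodule.comapSubtypeEquivOfLe hle).symm
        exact Module.Finite.iff_fg.1 this
  rcases le_total w w0 with h | h
  · have h1 : X.W i w = ⊥ := by
      rw [eq_bot_iff, ← hw0]
      exact X.W_mono i h
    rw [h1]
    infer_instance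
  · obtain ⟨k, hk⟩ := Int.eq_ofNat_of_zero_le (sub_nonneg.2 h)
    have := key k
    rwa [show w0 + (k : ℤ) = w by omega] at this

instance finite_V (i : ℕ) : FiniteDimensional Ω (X.V i) := by
  obtain ⟨w, hw⟩ := X.W_top i
  have := finite_W X i w
  rw [hw] at this
  exact Module.Finite.equiv (Submodule.topEquiv : (⊤ : Submodule Ω (X.V i)) ≃ₗ[Ω] X.V i)

/-! ### The extreme weights -/

lemma E₁_neg_weight (i : ℕ) {w : ℤ} (hw : w < 0) : X.E₁ (i - w) w = ⊥ := by
  rw [eq_bot_iff]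
  intro x hx
  rw [Submodule.mem_bot]
  funext a
  by_cases hc : InColumn ((i : ℤ) - w) a
  · have h1 := (hx a).1
    have h2 := hc.1
    rw [abs_of_nonneg (by omega)] at h2
    rw [X.gr_eq_bot a _ (Or.inl (by omega)), Submodule.mem_bot] at h1
    exact h1
  · exact (hx a).2 hc

lemma E₁_big_weight (i : ℕ) {w : ℤ} (hw : 2 * (i : ℤ) < w) : X.E₁ (i - w) w = ⊥ := by
  rw [eq_bot_iff]
  intro x hx
  rw [Submodule.mem_bot]
  funext a
  by_cases hc : InColumn ((i : ℤ) - w) a
  · have h1 := (hx a).1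
    have h2 := hc.1
    rw [abs_of_nonpos (by omega)] at h2
    rw [X.gr_eq_bot a _ (Or.inl (by omega)), Submodule.mem_bot] at h1
    exact h1
  · exact (hx a).2 hc

lemma W_eq_of_E₁ (i : ℕ) {w : ℤ} (h : X.cocycles (i - w) w ≤ X.coboundaries (i - w) w) :
    X.W i w = X.W i (w - 1) := by
  apply le_antisymm
  · intro v hv
    obtain ⟨x, hx⟩ := X.sp_left i w v hv
    exact (X.sp_ker i w _ _ hx).2 (h (X.sp_mem i w _ _ hx).2)
  · exact X.W_mono i (by omega)

lemma W_neg (i : ℕ) {w : ℤ} (hw : w < 0) : X.W i w = ⊥ := by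
  obtain ⟨w0, hw0⟩ := X.W_bot i
  have key : ∀ k : ℕ, w0 + k < 0 → X.W i (w0 + k) = ⊥ := by
    intro k
    induction k with
    | zero => intro _; rw [Nat.cast_zero, add_zero, hw0]
    | succ k ih =>
      intro h
      rw [W_eq_of_E₁ X i (w := w0 + ((k + 1 : ℕ) : ℤ)) (by
        have h1 : X.cocycles (i - (w0 + ((k + 1 : ℕ) : ℤ))) (w0 + ((k + 1 : ℕ) : ℤ)) ≤ ⊥ := by
          rw [← E₁_neg_weight X i h]
          exact inf_le_left
        exact h1.trans bot_le),
        show w0 + ((k + 1 : ℕ) : ℤ) - 1 = w0 + k by push_cast; ring]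
      exact ih (by push_cast at h; omega)
  rcases le_total w w0 with h | h
  · rw [eq_bot_iff, ← hw0]
    exact X.W_mono i h
  · obtain ⟨k, hk⟩ := Int.eq_ofNat_of_zero_le (sub_nonneg.2 h)
    have := key k (by omega)
    rwa [show w0 + (k : ℤ) = w by omega] at this

/-- The weights are at most `2 i`. -/
lemma W_big (i : ℕ) : X.W i (2 * i) = ⊤ := by
  obtain ⟨w0, hw0⟩ := X.W_top i
  have key : ∀ k : ℕ, X.W i (2 * i + k) = X.W i (2 * i) := by
    intro k
    induction k with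
    | zero => rw [Nat.cast_zero, add_zero]
    | succ k ih =>
      rw [W_eq_of_E₁ X i (w := 2 * (i : ℤ) + ((k + 1 : ℕ) : ℤ)) (by
        have h1 : X.cocycles (i - (2 * (i : ℤ) + ((k + 1 : ℕ) : ℤ)))
            (2 * (i : ℤ) + ((k + 1 : ℕ) : ℤ)) ≤ ⊥ := by
          rw [← E₁_big_weight X i (w := 2 * (i : ℤ) + ((k + 1 : ℕ) : ℤ)) (by push_cast; omega)]
          exact inf_le_left
        exact h1.trans bot_le),
        show 2 * (i : ℤ) + ((k + 1 : ℕ) : ℤ) - 1 = 2 * i + k by push_cast; ring]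
      exact ih
  rcases le_total w0 (2 * i) with h | h
  · rw [eq_top_iff, ← hw0]
    exact X.W_mono i h
  · obtain ⟨k, hk⟩ := Int.eq_ofNat_of_zero_le (sub_nonneg.2 h)
    have := key k
    rw [show 2 * (i : ℤ) + (k : ℤ) = w0 by omega, hw0] at this
    exact this.symm

/-! ### Determinants -/

lemma det_W (i : ℕ) (w : ℤ) :
    LinearMap.det ((X.actV i X.frob).restrict (W_stable X i w)) =
      LinearMap.det ((X.actV i X.frob).restrict (W_stable X i (w - 1))) *
        LinearMap.det (eact X (i - w) w) :=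
  det_sub (X.actV i X.frob) (W_stable X i (w - 1)) (W_stable X i w) (X.W_mono i (by omega))
    (emap X i w) (emap_surj X i w) (emap_zero X i w) _
    (fun v => Subtype.ext (gmap_act X i w v))

lemma finrank_W (i : ℕ) (w : ℤ) :
    finrank Ω (X.W i w) = finrank Ω (X.W i (w - 1)) + finrank Ω (E2 X (i - w) w) :=
  finrank_sub (X.W_mono i (by omega)) (emap X i w) (emap_surj X i w) (emap_zero X i w)

lemma det_Z (r w : ℤ) :
    LinearMap.det ((X.actC r X.frob).restrict (Z_stable X r w)) =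
      LinearMap.det ((X.actC r X.frob).restrict (B_stable X r w)) *
        LinearMap.det (eact X r w) :=
  det_sub (X.actC r X.frob) (B_stable X r w) (Z_stable X r w) (X.bd_le_zc r w)
    (zmap X r w) (zmap_surj X r w) (zmap_zero X r w) _
    (fun x => Subtype.ext (qact_mkQ X r w x).symm)

lemma finrank_Z (r w : ℤ) :
    finrank Ω (X.cocycles r w) = finrank Ω (X.coboundaries r w) + finrank Ω (E2 X r w) :=
  finrank_sub (X.bd_le_zc r w) (zmap X r w) (zmap_surj X r w) (zmap_zero X r w)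

end Pool.Agent.Helper812_WM
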