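import Pool.Agent.Helper812_WM.Graded

/-!
# The parts of weight zero and one of `H^3` of a threefold
-/

namespace Pool.Agent.Helper812_WM

universe u v

open Module Pool.Agent.Y143 Pool.Agent.X302.MW

variable {Ω : Type u} [Field Ω] [CharZero Ω] {Γ : Type} {n q : ℕ}

section eigen

variable (X : SemistableModel.{u, v} Ω Γ n q)

/-- An eigenvalue on a graded piece is an eigenvalue on the `E_1` term. -/
lemma eigen_of_graded (i : ℕ) (w : ℤ) {α : Ω} {v : X.V i} (hv : v ∈ X.W i w)
    (hv' : v ∉ X.W i (w - 1)) (h : X.actV i X.frob v - α • v ∈ X.W i (w - 1)) :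
    ∃ y ∈ X.cocycles (i - w) w, y ≠ 0 ∧ X.actC (i - w) X.frob y = α • y := by
  obtain ⟨x, hx⟩ := X.sp_left i w v hv
  have h1 := (X.sp_mem i w _ _ hx).2
  have h2 : x ∉ X.coboundaries (i - w) w := fun hc => hv' ((X.sp_ker i w _ _ hx).2 hc)
  have h3 : (X.actV i X.frob v - α • v, X.actC (i - w) X.frob x - α • x) ∈ X.sp i w :=
    Submodule.sub_mem _ (X.sp_act i w v x X.frob hx) (Submodule.smul_mem _ α hx)
  have h4 := (X.sp_ker i w _ _ h3).1 h
  exact exists_eigen (X.bd_le_zc _ _) (fun x hx => X.actC_bd _ _ _ hx) h1 h2 h4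

/-- The eigenvalues on the part of weight zero are roots of unity. -/
lemma eigen_zero (hI : HasIntegralFrobenius X.toSpecialFibre) (i : ℕ) {α : Ω} {v : X.V i}
    (hv : v ∈ X.W i 0) (hv0 : v ≠ 0) (h : X.actV i X.frob v = α • v) :
    IsIntegral ℤ α ∧ ∃ k : ℕ, 0 < k ∧ α ^ k = 1 := by
  obtain ⟨y, hy, hy0, hyα⟩ := eigen_of_graded X i 0 (α := α) hv
    (by rw [W_neg X i (by norm_num)]; simpa using hv0)
    (by rw [h, sub_self]; exact Submodule.zero_mem _)
  rw [sub_zero] at hy hyα
  have hyi : y i ≠ 0 := by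
    intro h0
    apply hy0
    funext a
    by_cases hc : InColumn (i : ℤ) a
    · by_cases ha : a = i
      · subst ha
        exact h0
      · have h1 := (hy.1 a).1
        have h2 := hc.1
        rw [Nat.abs_cast] at h2
        rw [X.gr_eq_bot a _ (Or.inl (by omega)), Submodule.mem_bot] at h1
        exact h1
    · exact (hy.1 a).2 hc
  have h1 := (hy.1 i).1
  rw [zero_add, sub_self] at h1
  have h2 := congrFun hyα i
  rw [X.actC_apply, sub_self, Int.zero_ediv, zpow_zero, Units.val_one, one_smul,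
    Pi.smul_apply] at h2
  apply h0_root X.toSpecialFibre hI i (x := y i) ⟨h1, ?_⟩ hyi
  rw [SetLike.mem_coe, Module.End.mem_maxGenEigenspace]
  refine ⟨1, ?_⟩
  rw [pow_one]
  show X.act i X.frob (y i) - α • y i = 0
  rw [h2, sub_self]

end eigen

section three

variable (X : SemistableModel.{u, v} Ω Γ 3 q)

/-- The cocycles of weight one in `H^3`. -/
lemma mem_Z21 {x : X.C} : x ∈ X.cocycles 2 1 ↔ ∃ z ∈ X.gr 2 1, x = Pi.single 2 z := by
  have hcol : InColumn 2 2 := ⟨by norm_num, ⟨0, by norm_num⟩⟩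
  constructor
  · intro hx
    refine ⟨x 2, ?_, ?_⟩
    · have := (hx.1 2).1
      rwa [show (1 : ℤ) + 2 - ((2 : ℕ) : ℤ) = 1 by norm_num] at this
    · funext a
      by_cases ha : a = 2
      · subst ha
        rw [Pi.single_eq_same]
      · rw [Pi.single_eq_of_ne ha]
        by_cases hc : InColumn 2 a
        · have h1 := hc.1
          rw [abs_two] at h1
          by_cases ha3 : a = 3
          · subst ha3
            exfalso
            have h2 := hc.2
            norm_num at h2
          · exact X.eq_zero_of_lt (by omega) _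
        · exact (hx.1 a).2 hc
  · rintro ⟨z, hz, rfl⟩
    refine ⟨X.single_mem hcol (by simpa using hz), ?_⟩
    rw [SetLike.mem_coe, LinearMap.mem_ker]
    funext b
    rw [X.diff_apply]
    by_cases hc : InColumn (2 + 1) b
    · have hc1 := hc.1
      rw [show |(2 : ℤ) + 1| = 3 by norm_num] at hc1
      rw [X.cut_of hc, Pi.add_apply, X.gysC_apply, Pi.single_eq_of_ne (by omega), map_zero,
        add_zero]
      cases b with
      | zero => rfl
      | succ b =>
        rw [X.resC_succ]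
        by_cases hb : b = 2
        · subst hb
          rw [Pi.single_eq_same]
          have h3 := X.res_gr 2 1 z hz
          rw [X.gr_eq_bot (2 + 1) 1 (Or.inr (by norm_num)), Submodule.mem_bot] at h3
          rw [h3]
          rfl
        · rw [Pi.single_eq_of_ne hb, map_zero]
          rfl
    · rw [X.cut_of_not hc]
      rfl

/-- The coboundaries of weight one in `H^3`. -/
lemma mem_B21 {x : X.C} :
    x ∈ X.coboundaries 2 1 ↔ ∃ z ∈ (X.gr 1 1).map (X.res 1), x = Pi.single 2 z := by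
  have hcol : InColumn 1 1 := ⟨by norm_num, ⟨0, by norm_num⟩⟩
  have key : ∀ y ∈ X.gr 1 1, X.diff (2 - 1) (Pi.single 1 y : X.C) = Pi.single 2 (X.res 1 y) := by
    intro y hy
    funext b
    rw [X.diff_apply]
    by_cases hc : InColumn (2 - 1 + 1) b
    · have hc1 := hc.1
      rw [show |(2 : ℤ) - 1 + 1| = 2 by norm_num] at hc1
      rw [X.cut_of hc, Pi.add_apply, X.gysC_apply, Pi.single_eq_of_ne (by omega), map_zero,
        add_zero]
      cases b with
      | zero => norm_num at hc1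
      | succ b =>
        rw [X.resC_succ]
        by_cases hb : b = 1
        · subst hb
          rw [Pi.single_eq_same]
          show _ = (Pi.single 2 (X.res 1 y) : X.C) 2
          rw [Pi.single_eq_same]
        · rw [Pi.single_eq_of_ne hb, map_zero, Pi.single_eq_of_ne (by omega)]
    · rw [X.cut_of_not hc]
      by_cases hb : b = 2
      · subst hb
        exact absurd (by refine ⟨by norm_num, ⟨0, by norm_num⟩⟩) hc
      · rw [Pi.single_eq_of_ne hb]
  constructor
  · rintro ⟨y, hy, rfl⟩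
    have hy1 : y 1 ∈ X.gr 1 1 := by
      have := (hy 1).1
      rwa [show (1 : ℤ) + (2 - 1) - ((1 : ℕ) : ℤ) = 1 by norm_num] at this
    have hyy : y = Pi.single 1 (y 1) := by
      funext a
      by_cases ha : a = 1
      · subst ha
        rw [Pi.single_eq_same]
      · rw [Pi.single_eq_of_ne ha]
        by_cases hc : InColumn (2 - 1) a
        · have h1 := hc.1
          rw [show |(2 : ℤ) - 1| = 1 by norm_num] at h1
          have h2 := (hy a).1
          rw [show (1 : ℤ) + (2 - 1) - (a : ℤ) = 2 - a by ring] at h2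
          have h3 := hc.2
          rw [X.gr_eq_bot a (2 - (a : ℤ)) (Or.inl (by omega)), Submodule.mem_bot] at h2
          exact h2
        · exact (hy a).2 hc
    exact ⟨X.res 1 (y 1), ⟨y 1, hy1, rfl⟩, by rw [hyy, key _ (by simpa using hy1), Pi.single_eq_same]⟩
  · rintro ⟨_, ⟨y, hy, rfl⟩, rfl⟩
    refine ⟨Pi.single 1 y, ?_, key y hy⟩
    apply X.single_mem (by simpa using hcol)
    rwa [show (1 : ℤ) + (2 - 1) - ((1 : ℕ) : ℤ) = 1 by norm_num]

/-- The Frobenius on a subspace of the component `2` of the column `2`. -/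
lemma det_single {A : Submodule Ω X.C} {S : Submodule Ω (X.H 2)}
    (h : ∀ x, x ∈ A ↔ ∃ z ∈ S, x = Pi.single 2 z) (hA : ∀ x ∈ A, X.actC 2 X.frob x ∈ A)
    (hS : ∀ z ∈ S, X.act 2 X.frob z ∈ S) :
    LinearMap.det ((X.actC 2 X.frob).restrict hA) =
      LinearMap.det ((X.act 2 X.frob).restrict hS) ∧ finrank Ω A = finrank Ω S := by
  let g : S →ₗ[Ω] X.C := LinearMap.single Ω (fun a => X.H a) 2 ∘ₗ S.subtype
  have hg : Function.Injective g := by
    rw [LinearMap.coe_comp]
    exact (Pi.single_injective 2).comp (Submodule.subtype_injective S)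
  have hgA : LinearMap.range g = A := by
    ext x
    rw [h]
    constructor
    · rintro ⟨z, rfl⟩
      exact ⟨z, z.2, rfl⟩
    · rintro ⟨z, hz, rfl⟩
      exact ⟨⟨z, hz⟩, rfl⟩
  constructor
  · apply det_restrict_eq _ hA g hg hgA
    intro x
    funext b
    show (Pi.single 2 (X.act 2 X.frob x) : X.C) b = X.actC 2 X.frob (Pi.single 2 (x : X.H 2)) b
    rw [X.actC_apply]
    by_cases hb : b = 2
    · subst hb
      rw [Pi.single_eq_same, Pi.single_eq_same,
        show (((2 : ℕ) : ℤ) - 2) / 2 = 0 by norm_num, zpow_zero, Units.val_one, one_smul]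
    · rw [Pi.single_eq_of_ne hb, Pi.single_eq_of_ne hb, map_zero, smul_zero]
  · rw [← hgA, LinearMap.finrank_range_of_inj hg]

lemma gr_stable (a : ℕ) (m : ℤ) : ∀ z ∈ X.gr a m, X.act a X.frob z ∈ X.gr a m :=
  fun z hz => X.act_gr a m X.frob z hz

lemma im_stable (a : ℕ) (m : ℤ) : ∀ z ∈ (X.gr a m).map (X.res a),
    X.act (a + 1) X.frob z ∈ (X.gr a m).map (X.res a) := by
  rintro _ ⟨z, hz, rfl⟩
  rw [X.res_act]
  exact ⟨_, X.act_gr a m X.frob z hz, rfl⟩

/-- The Frobenius is a similitude of the pairing on the curves. -/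
lemma pair_frob (x y : X.H 2) :
    X.pair 2 (X.act 2 X.frob x) (X.act 2 X.frob y) = (q : Ω) * X.pair 2 x y := by
  rw [X.act_pair, X.frob_inv, show ((3 : ℕ) : ℤ) - ((2 : ℕ) : ℤ) = 1 by norm_num, zpow_one,
    X.cyc_frob]

/-- A subspace of `H^1` of the curves on which the pairing is nondegenerate. -/
lemma det_curve {S : Submodule Ω (X.H 2)} (hS1 : S ≤ X.gr 2 1)
    (hS : ∀ z ∈ S, X.act 2 X.frob z ∈ S) (hnd : ∀ x ∈ S, (∀ y ∈ S, X.pair 2 x y = 0) → x = 0) :
    LinearMap.det ((X.act 2 X.frob).restrict hS) ^ 2 = (q : Ω) ^ finrank Ω S ∧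
      Even (finrank Ω S) := by
  let ψ : S →ₗ[Ω] S →ₗ[Ω] Ω := (X.pair 2).compl₁₂ S.subtype S.subtype
  have hψ : ∀ x, (∀ y, ψ x y = 0) → x = 0 := by
    intro x hx
    apply Subtype.ext
    apply hnd x x.2
    intro y hy
    exact hx ⟨y, hy⟩
  constructor
  · apply det_sq_of_form ψ hψ
    intro x y
    exact pair_frob X x y
  · apply even_of_form ψ hψ
    intro x y
    show X.pair 2 (x : X.H 2) (y : X.H 2) = -X.pair 2 (y : X.H 2) (x : X.H 2)
    rw [X.pair_symm 2 1 x y (hS1 x.2), zpow_one, neg_one_mul, neg_neg]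

/-- The part of weight one: the square of the determinant of the Frobenius is `q ^ dim`, and the
dimension is even. -/
lemma weight_one (hP : NondegOnImage (X.gr 1) (X.pair 2) (X.lef 2) 0 (X.res 1)) :
    LinearMap.det (eact X 2 1) ^ 2 = (q : Ω) ^ finrank Ω (E2 X 2 1) ∧
      Even (finrank Ω (E2 X 2 1)) := by
  have hq : (q : Ω) ≠ 0 := Nat.cast_ne_zero.2 X.q_ne
  have h1 := det_curve X (S := X.gr 2 1) le_rfl (gr_stable X 2 1) (fun x hx h =>
    eq_zero_of_orth X.toSpecialFibre 2 hx (fun b hb => h b (by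
      rwa [show 2 * (((3 : ℕ) : ℤ) - ((2 : ℕ) : ℤ)) - 1 = 1 by norm_num] at hb)))
  have hle : (X.gr 1 1).map (X.res 1) ≤ X.gr 2 1 := by
    rintro _ ⟨z, hz, rfl⟩
    exact X.res_gr 1 1 z hz
  have h2 := det_curve X (S := (X.gr 1 1).map (X.res 1)) hle (im_stable X 1 1) (by
    rintro _ ⟨x, hx, rfl⟩ h
    apply hP x hx
    intro y hy
    exact h _ ⟨y, hy, rfl⟩)
  obtain ⟨h3, h4⟩ := det_single X (fun x => mem_Z21 X) (Z_stable X 2 1) (gr_stable X 2 1)
  obtain ⟨h5, h6⟩ := det_single X (fun x => mem_B21 X) (B_stable X 2 1) (im_stable X 1 1)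
  have h7 := det_Z X 2 1
  have h8 := finrank_Z X 2 1
  rw [h3, h5] at h7
  rw [h4, h6] at h8
  constructor
  · have h9 := congrArg (fun t => t ^ 2) h7
    simp only [mul_pow] at h9
    rw [h1.1, h2.1, h8, pow_add] at h9
    exact (mul_left_cancel₀ (pow_ne_zero _ hq) h9).symm
  · have h9 := h1.2
    rw [h8] at h9
    exact (Nat.even_add.1 h9).1 h2.2

/-- The determinant of the Frobenius on the part of weight at most one. -/
lemma det_W1 (hP : NondegOnImage (X.gr 1) (X.pair 2) (X.lef 2) 0 (X.res 1)) :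
    LinearMap.det ((X.actV 3 X.frob).restrict (W_stable X 3 1)) ^ 2 =
      LinearMap.det ((X.actV 3 X.frob).restrict (W_stable X 3 0)) ^ 2 *
        (q : Ω) ^ finrank Ω (E2 X 2 1) := by
  have h1 := det_W X 3 1
  have e : ((3 : ℕ) : ℤ) - 1 = 2 := by norm_num
  have h2 : LinearMap.det (eact X (((3 : ℕ) : ℤ) - 1) 1) = LinearMap.det (eact X 2 1) := by
    rw [e]
  rw [h2] at h1
  rw [h1, mul_pow, (weight_one X hP).1]

lemma finrank_W1 : finrank Ω (X.W 3 1) = finrank Ω (X.W 3 0) + finrank Ω (E2 X 2 1) := by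
  have h1 := finrank_W X 3 1
  have e : ((3 : ℕ) : ℤ) - 1 = 2 := by norm_num
  have h2 : finrank Ω (E2 X (((3 : ℕ) : ℤ) - 1) 1) = finrank Ω (E2 X 2 1) := by
    rw [e]
  rw [h2] at h1
  exact h1

/-- The determinant of the Frobenius on the part of weight zero is a unit. -/
lemma det_W0 [IsAlgClosed Ω] (hI : HasIntegralFrobenius X.toSpecialFibre)
    (R : ValuationSubring Ω) :
    LinearMap.det ((X.actV 3 X.frob).restrict (W_stable X 3 0)) ∈ R ∧
      (LinearMap.det ((X.actV 3 X.frob).restrict (W_stable X 3 0)))⁻¹ ∈ R := by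
  let M : Submonoid Ω :=
    { carrier := {x | x ∈ R ∧ x⁻¹ ∈ R}
      one_mem' := ⟨R.one_mem, by rw [inv_one]; exact R.one_mem⟩
      mul_mem' := fun {a b} ha hb => ⟨R.mul_mem _ _ ha.1 hb.1, by
        rw [mul_inv]; exact R.mul_mem _ _ ha.2 hb.2⟩ }
  have : LinearMap.det ((X.actV 3 X.frob).restrict (W_stable X 3 0)) ∈ M := by
    apply det_mem_of_eigen
    intro α v hv hα
    obtain ⟨h1, k, hk, hk'⟩ := eigen_zero X hI 3 (α := α) v.2 (fun h => hv (Subtype.ext h))
      (congrArg Subtype.val hα)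
    refine ⟨mem_of_int R h1, ?_⟩
    have h2 : α⁻¹ = α ^ (k - 1) := by
      have hα0 : α ≠ 0 := by
        rintro rfl
        rw [zero_pow hk.ne'] at hk'
        exact zero_ne_one hk'
      apply inv_eq_of_mul_eq_one_left
      rw [← pow_succ, Nat.sub_add_cancel hk]
      exact hk'
    rw [h2]
    exact pow_mem (mem_of_int R h1) _
  exact this

end three

end Pool.Agent.Helper812_WM
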