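import Pool.Agent.Helper812_WM.Exhaust

/-!
# The square of the monodromy operator and the weights at most one
-/

namespace Pool.Agent.Helper812_WM

universe u v

open Module Pool.Agent.Y143 Pool.Agent.X302.MW

variable {Ω : Type u} [Field Ω] [CharZero Ω] {Γ : Type} {n q : ℕ}

section dual

variable (X : SpecialFibre.{u, v} Ω Γ n q)

/-- The annihilator of the cocycles. -/
lemma ann_Z (r w : ℤ) :
    annR X.psi (X.cocycles r w) (X.E₁ (-r) (2 * n - w)) = X.coboundaries (-r) (2 * n - w) := by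
  have hB : Perf X.psi (X.E₁ (r + 1) w) (X.E₁ (-r - 1) (2 * n - w)) := by
    have := X.psi_perf (r + 1) w
    rwa [show -(r + 1) = -r - 1 by ring] at this
  refine annR_ker (X.psi_perf r w) hB (fun x hx => X.diff_mem hx) (fun y hy => ?_)
    (fun x hx y hy => X.psi_diff hx hy)
  have := X.diff_mem hy
  rwa [show -r - 1 + 1 = -r by ring] at this

/-- The annihilator of the coboundaries. -/
lemma ann_B (r w : ℤ) :
    annR X.psi (X.coboundaries r w) (X.E₁ (-r) (2 * n - w)) = X.cocycles (-r) (2 * n - w) := by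
  refine annR_map (X.psi_perf (r - 1) w) (fun y hy => ?_) (fun x hx y hy => ?_)
  · have := X.diff_mem hy
    rwa [show -r + 1 = -(r - 1) by ring] at this
  · have h1 := X.psi_diff (r := r - 1) hx (y := y) (w' := 2 * n - w) (by
      rwa [show -(r - 1) - 1 = -r by ring])
    rwa [show -(r - 1) - 1 = -r by ring] at h1

lemma dual_trivial {r w : ℤ} (h : X.cocycles r w ≤ X.coboundaries r w) :
    X.cocycles (-r) (2 * n - w) ≤ X.coboundaries (-r) (2 * n - w) := by
  rw [← ann_B, ← ann_Z]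
  exact annR_mono h

end dual

variable (X : SemistableModel.{u, v} Ω Γ 3 q)

lemma zc_le_of_finrank {n : ℕ} (X : SemistableModel.{u, v} Ω Γ n q) {r w : ℤ}
    (h : finrank Ω (E2 X r w) = 0) : X.cocycles r w ≤ X.coboundaries r w := by
  have h1 := finrank_Z X r w
  rw [h, add_zero] at h1
  exact (Submodule.eq_of_le_of_finrank_eq (X.bd_le_zc r w) h1.symm).ge

/-- If the square of the monodromy operator is not zero, then there is a part of weight at most
one. -/
lemma W1_ne_bot (hN : X.N 3 ^ 2 ≠ 0) : X.W 3 1 ≠ ⊥ := by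
  intro h
  have h0 : X.W 3 0 = ⊥ := by
    rw [eq_bot_iff, ← h]
    exact X.W_mono 3 (by norm_num)
  have h1 : finrank Ω (E2 X (((3 : ℕ) : ℤ) - 1) 1) = 0 := by
    have := finrank_W X 3 1
    rw [h, finrank_bot] at this
    omega
  have h2 : finrank Ω (E2 X (((3 : ℕ) : ℤ) - 0) 0) = 0 := by
    have := finrank_W X 3 0
    rw [h0, finrank_bot] at this
    omega
  have h3 := dual_trivial X.toSpecialFibre (zc_le_of_finrank X h1)
  have h4 := dual_trivial X.toSpecialFibre (zc_le_of_finrank X h2)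
  have e6 : X.W 3 6 = X.W 3 5 := by
    have := W_eq_of_E₁ X 3 (w := 6) (by
      rwa [show -(((3 : ℕ) : ℤ) - 0) = ((3 : ℕ) : ℤ) - 6 by norm_num,
        show 2 * ((3 : ℕ) : ℤ) - 0 = 6 by norm_num] at h4)
    rwa [show (6 : ℤ) - 1 = 5 by norm_num] at this
  have e5 : X.W 3 5 = X.W 3 4 := by
    have := W_eq_of_E₁ X 3 (w := 5) (by
      rwa [show -(((3 : ℕ) : ℤ) - 1) = ((3 : ℕ) : ℤ) - 5 by norm_num,
        show 2 * ((3 : ℕ) : ℤ) - 1 = 5 by norm_num] at h3)
    rwa [show (5 : ℤ) - 1 = 4 by norm_num] at this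
  have htop : X.W 3 4 = ⊤ := by
    rw [← e5, ← e6]
    have := W_big X 3
    rwa [show 2 * ((3 : ℕ) : ℤ) = 6 by norm_num] at this
  apply hN
  apply LinearMap.ext
  intro v
  have hv : v ∈ X.W 3 4 := by rw [htop]; exact Submodule.mem_top
  have g1 := W_N X 3 4 v hv
  have g2 := W_N X 3 _ _ g1
  rw [show (4 : ℤ) - 2 - 2 = 0 by norm_num, h0, Submodule.mem_bot] at g2
  rw [sq, Module.End.mul_apply, g2]
  rfl

/-- The case of Calabi-Yau threefolds. -/
theorem W_of_N (hP : NondegOnImage (X.gr 1) (X.pair 2) (X.lef 2) 0 (X.res 1))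
    (hN : X.N 3 ^ 2 ≠ 0) : 2 ≤ finrank Ω (X.W 3 0) + finrank Ω (X.W 3 1) := by
  have h1 : finrank Ω (X.W 3 1) ≠ 0 := by
    intro h
    exact W1_ne_bot X hN (Submodule.finrank_eq_zero.1 h)
  have h2 := finrank_W1 X
  obtain ⟨k, hk⟩ := (weight_one X hP).2
  omega

end Pool.Agent.Helper812_WM
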