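import Pool.Agent.Helper812_WM.Mult
import Pool.Agent.Helper812_WM.Unip

/-!
# The weight-monodromy conjecture for threefolds whose Hodge number is exhausted
-/

namespace Pool.Agent.Helper812_WM

universe u v

open Module Pool.Agent.Y143 Pool.Agent.X302.MW

section loc

variable {Ω : Type u} [Field Ω] [CharZero Ω] {Γ : Type} {n q : ℕ}
variable [IsAlgClosed Ω] (X : SemistableModel.{u, v} Ω Γ n q)

/-- If `α` is not an eigenvalue on the part of weight two of `H^3` of the generic fibre, then the
restriction is surjective on the part of eigenvalue `α` of `H^2` of the double surfaces. -/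
lemma res_surj_of_no (hn : n = 3) (hI : HasIntegralFrobenius X.toSpecialFibre)
    {α : Ω} (hα : ¬ IsTateNumber q α)
    (hno : ∀ v ∈ X.W 3 2, v ∉ X.W 3 1 → X.actV 3 X.frob v - α • v ∈ X.W 3 1 → False)
    {z : X.H 1} (hz : z ∈ frobPart X.toSpecialFibre 1 2 α) :
    ∃ y ∈ frobPart X.toSpecialFibre 0 2 α, X.res 0 y = z := by
  classical
  have hq : (q : Ω) ≠ 0 := Nat.cast_ne_zero.2 X.q_ne
  have hcol : InColumn 1 1 := ⟨by simp, ⟨0, by simp⟩⟩
  have hxE : (Pi.single 1 z : X.C) ∈ X.E₁ 1 2 := by
    apply X.single_mem hcol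
    simpa using hz.1
  have hres : X.res 1 z = 0 := by
    by_contra hne
    have h1 := res_frobPart X.toSpecialFibre 1 2 hz
    have h2 := h2_curve X.toSpecialFibre hn hI h1 hne
    obtain ⟨y, hy, hy0, h⟩ := exists_eigen_gr X.toSpecialFibre 2 2 h1 hne
    have hw : IsWeilNumber q 0 ((q : Ω)⁻¹ * α) := by
      have := (X.weil 2 2 α y hy hy0 h).twist X.q_ne (-1)
      rwa [show (2 : ℤ) + 2 * (-1) = 0 by norm_num, zpow_neg_one] at this
    obtain ⟨k, hk, hk'⟩ := root_of_unity h2 (fun z hz => by
      have := hw.2 z hz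
      rwa [Int.cast_zero, zero_div, Real.rpow_zero] at this)
    exact hα (isTate_of_root hq hk hk')
  have hxc : (Pi.single 1 z : X.C) ∈ X.cocycles 1 2 := by
    refine ⟨hxE, ?_⟩
    rw [SetLike.mem_coe, LinearMap.mem_ker]
    funext b
    rw [X.diff_apply]
    by_cases hc : InColumn (1 + 1) b
    · have hc1 := hc.1
      rw [show |(1 : ℤ) + 1| = 2 by norm_num] at hc1
      rw [X.cut_of hc, Pi.add_apply, X.gysC_apply, Pi.single_eq_of_ne (by omega), map_zero,
        add_zero]
      cases b with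
      | zero => rfl
      | succ b =>
        rw [X.resC_succ]
        by_cases hb : b = 1
        · subst hb
          rw [Pi.single_eq_same, hres]
          rfl
        · rw [Pi.single_eq_of_ne hb, map_zero]
          rfl
    · rw [X.cut_of_not hc]
      rfl
  have hgen := single_gen X.toSpecialFibre 1 1 rfl hz.2
  by_cases hb : (Pi.single 1 z : X.C) ∈ X.coboundaries 1 2
  · obtain ⟨v, hvE, hvg, hv⟩ := cob_gen X.toSpecialFibre 1 2 hgen hb
    rw [show (1 : ℤ) - 1 = 0 by norm_num] at hvE hvg hv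
    have hv2 : v 2 = 0 := by
      by_contra hne
      have h4 := comp_gen X.toSpecialFibre 0 hvg 2
      rw [show (((2 : ℕ) : ℤ) - 0) / 2 = 1 by norm_num, zpow_one] at h4
      have h5 := (hvE 2).1
      rw [show (2 : ℤ) + 0 - ((2 : ℕ) : ℤ) = 0 by norm_num] at h5
      obtain ⟨-, k, hk, hk'⟩ := h0_root X.toSpecialFibre hI 2 ⟨h5, h4⟩ hne
      exact hα (isTate_of_root hq hk hk')
    refine ⟨v 0, ⟨?_, ?_⟩, ?_⟩
    · have h5 := (hvE 0).1
      rwa [show (2 : ℤ) + 0 - ((0 : ℕ) : ℤ) = 2 by norm_num] at h5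
    · have h4 := comp_gen X.toSpecialFibre 0 hvg 0
      rwa [show (((0 : ℕ) : ℤ) - 0) / 2 = 0 by norm_num, zpow_zero, inv_one, one_mul] at h4
    · have h6 := congrFun hv 1
      rw [Pi.single_eq_same, X.diff_apply, X.cut_of (by simpa using hcol), Pi.add_apply,
        X.gysC_apply] at h6
      have h7 : X.gys 1 (v (1 + 1)) = 0 := by
        have : v (1 + 1) = 0 := hv2
        rw [this, map_zero]
      rw [h7, add_zero] at h6
      exact h6
  · exfalso
    obtain ⟨x', hx', hxB', hx''⟩ := exists_eigen_mod (X.actC 1 X.frob) α (Z := X.cocycles 1 2)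
      (fun x hx => zc_stable X 1 2 hx) hxc hb hgen
    have e : ((3 : ℕ) : ℤ) - 2 = 1 := by norm_num
    obtain ⟨v, hv⟩ := X.sp_right 3 2 x' (by rw [e]; exact hx')
    have h1 : (X.actV 3 X.frob v - α • v, X.actC (((3 : ℕ) : ℤ) - 2) X.frob x' - α • x') ∈
        X.sp 3 2 :=
      Submodule.sub_mem _ (X.sp_act 3 2 v x' X.frob hv) (Submodule.smul_mem _ α hv)
    apply hno v (X.sp_mem 3 2 v x' hv).1
    · intro hc
      have := (X.sp_ker 3 2 v x' hv).1 hc
      rw [e] at this
      exact hxB' this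
    · refine (X.sp_ker 3 2 _ _ h1).2 ?_
      rw [e]
      exact hx''

end loc

section cover

variable {Ω : Type u} [Field Ω] [CharZero Ω] {Γ : Type} {n q : ℕ}
variable [IsAlgClosed Ω] (X : Degeneration.{u, v} Ω Γ n q)

omit [IsAlgClosed Ω] in
/-- If the multiplicity of the eigenvalue on `H^2` of the double surfaces is at most one, the
character is simple. -/
lemma simple_of_mult (hn : n = 3) (hI : HasIntegralFrobenius X.toSpecialFibre) {χ : Γ → Ω}
    (hα : ¬ IsTateNumber q (χ X.frob))
    (hs : mult X.toSpecialFibre 1 2 (χ X.frob) ≤ 1) :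
    finrank Ω (X.primPart 1 2 χ) ≤ 1 := by
  classical
  have hq : (q : Ω) ≠ 0 := Nat.cast_ne_zero.2 X.q_ne
  have key : ∀ x ∈ X.primPart 1 2 χ, x 1 ∈ frobPart X.toSpecialFibre 1 2 (χ X.frob) ∧
      x = Pi.single 1 (x 1) := by
    rintro x ⟨⟨hxE, -⟩, hxW⟩
    have hxg : x ∈ Module.End.maxGenEigenspace (X.actC 1 X.frob) (χ X.frob) := by
      have h1 : x ∈ Wt (X.actC 1) χ := hxW
      unfold Wt at h1
      rw [Submodule.mem_iInf] at h1
      exact h1 X.frob
    have hx1 : x 1 ∈ frobPart X.toSpecialFibre 1 2 (χ X.frob) := by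
      constructor
      · have := (hxE 1).1
        rwa [show (2 : ℤ) + 1 - ((1 : ℕ) : ℤ) = 2 by norm_num] at this
      · have := comp_gen X.toSpecialFibre 1 hxg 1
        rwa [show (((1 : ℕ) : ℤ) - 1) / 2 = 0 by norm_num, zpow_zero, inv_one, one_mul] at this
    refine ⟨hx1, ?_⟩
    funext b
    by_cases hb : b = 1
    · subst hb
      rw [Pi.single_eq_same]
    · rw [Pi.single_eq_of_ne hb]
      by_cases hc : InColumn 1 b
      · have hc2 := hc.2
        have hc1 := hc.1
        rw [abs_one] at hc1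
        by_cases hb3 : b = 3
        · subst hb3
          by_contra hne
          have h3 := comp_gen X.toSpecialFibre 1 hxg 3
          rw [show (((3 : ℕ) : ℤ) - 1) / 2 = 1 by norm_num, zpow_one] at h3
          have h4 := (hxE 3).1
          rw [show (2 : ℤ) + 1 - ((3 : ℕ) : ℤ) = 0 by norm_num] at h4
          obtain ⟨-, k, hk, hk'⟩ := h0_root X.toSpecialFibre hI 3 ⟨h4, h3⟩ hne
          exact hα (isTate_of_root hq hk hk')
        · exact X.eq_zero_of_lt (by omega) _
      · exact (hxE b).2 hc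
  let g : X.primPart 1 2 χ →ₗ[Ω] frobPart X.toSpecialFibre 1 2 (χ X.frob) :=
    LinearMap.codRestrict _ (LinearMap.proj (φ := fun a => X.H a) 1 ∘ₗ (X.primPart 1 2 χ).subtype)
      (fun x => (key x x.2).1)
  refine le_trans (LinearMap.finrank_le_finrank_of_injective (f := g) ?_) hs
  rw [injective_iff_map_eq_zero]
  intro x hx
  apply Subtype.ext
  have h1 : (x : X.C) 1 = 0 := congrArg Subtype.val hx
  rw [(key x x.2).2, h1, Pi.single_zero]
  rfl

/-- mw purity of a threefold for which the restriction is surjective on the parts of repeated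
transcendental eigenvalues. -/
theorem mw_three' (hn : n = 3) (hI : HasIntegralFrobenius X.toSpecialFibre)
    (A : DivisorClasses X.toSpecialFibre) (hT : A.TateConj 0)
    (hs : ∀ α : Ω, ¬ IsTateNumber q α → IsRepeated X.toSpecialFibre α →
      ∀ z ∈ frobPart X.toSpecialFibre 1 2 α,
        ∃ y ∈ frobPart X.toSpecialFibre 0 2 α, X.res 0 y = z) (k : ℕ) :
    IsMWPure q k (X.actV k X.frob) (X.N k) := by
  apply mw X A k
  intro a w χ h1 h2 h3
  obtain rfl : w = 2 := by omega
  obtain rfl : a = 0 := by omega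
  by_cases hα : IsTateNumber q (χ X.frob)
  · right
    right
    right
    refine ⟨rfl, fun x hx hxW => ?_⟩
    apply hT _ hα x hx
    unfold Wt at hxW
    rw [Submodule.mem_iInf] at hxW
    exact hxW X.frob
  · by_cases hm : IsRepeated X.toSpecialFibre (χ X.frob)
    · left
      right
      left
      have := covered X hn hI hα (hs _ hα hm)
      simpa using this
    · by_cases hm0 : 1 ≤ mult X.toSpecialFibre 0 2 (χ X.frob)
      · left
        left
        have := simple_of_mult X hn hI hα (by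
          by_contra hc
          exact hm ⟨hm0, by omega⟩)
        simpa using this
      · right
        right
        left
        have h4 : frobPart X.toSpecialFibre 0 2 (χ X.frob) = ⊥ :=
          Submodule.finrank_eq_zero.1 (by unfold mult at hm0; omega)
        unfold AbsentAt
        rw [Submodule.disjoint_def]
        intro x hx hxW
        have h5 : x ∈ frobPart X.toSpecialFibre 0 2 (χ X.frob) := by
          refine ⟨hx, ?_⟩
          unfold Wt at hxW
          rw [Submodule.mem_iInf] at hxW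
          exact hxW X.frob
        rwa [h4, Submodule.mem_bot] at h5

end cover

section final

variable {Ω : Type u} [Field Ω] [CharZero Ω] [IsAlgClosed Ω] {Γ : Type} {Ω' : Type u} [Field Ω']
  [CharZero Ω'] [IsAlgClosed Ω'] {Γ' : Type} {q : ℕ}

/-- The surjectivity of the restriction on the parts of repeated transcendental eigenvalues, from
the comparison of two theories. -/
theorem surj_of_exhausted (X : SemistableModel.{u, v} Ω Γ 3 q)
    (X' : SemistableModel.{u, v} Ω' Γ' 3 q) (hq : IsPrimePow q)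
    (hI : HasIntegralFrobenius X.toSpecialFibre) (hI' : HasIntegralFrobenius X'.toSpecialFibre)
    (hC0 : SameFrobenius X.toSpecialFibre X'.toSpecialFibre 0 2)
    (hC1 : SameFrobenius X.toSpecialFibre X'.toSpecialFibre 1 2)
    (h2 : ∀ (α : Ω) (α' : Ω'), AreConjugate α α' → ¬ IsTateNumber q α →
      genMult X 2 α ≤ genMult X' 2 α')
    (R : ValuationSubring Ω') (hR : ((q : Ω'))⁻¹ ∉ R) {h : ℕ} (hNH : NewtonHodge X' R 3 h)
    (hE : IsExhausted X' R h)
    (α : Ω) (hα : ¬ IsTateNumber q α) (hm : IsRepeated X.toSpecialFibre α)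
    (z : X.H 1) (hz : z ∈ frobPart X.toSpecialFibre 1 2 α) :
    ∃ y ∈ frobPart X.toSpecialFibre 0 2 α, X.res 0 y = z := by
  by_cases hz0 : z = 0
  · exact ⟨0, Submodule.zero_mem _, by rw [hz0, map_zero]⟩
  have hq1 : 1 < q := hq.one_lt
  have hq0 : (q : Ω') ≠ 0 := Nat.cast_ne_zero.2 X.q_ne
  obtain ⟨y, hy, hy0, hyα⟩ := exists_eigen_gr X.toSpecialFibre 1 2 hz hz0
  have hint := hI 1 2 α y hy hy0 hyα
  have hw := X.weil 1 2 α y hy hy0 hyα
  -- a conjugate of slope less than one
  obtain ⟨α', hα', hαR⟩ : ∃ α' : Ω', Polynomial.aeval α' (minpoly ℚ α) = 0 ∧ α' / q ∉ R := by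
    by_contra hcon
    push Not at hcon
    exact hα (tate_of_val hq R hR hint hw hcon)
  have hconj : AreConjugate α α' := by
    have halg : IsAlgebraic ℚ α := hw.1
    refine ⟨halg, ?_, ?_⟩
    · exact ⟨minpoly ℚ α, minpoly.ne_zero halg.isIntegral, hα'⟩
    · exact minpoly.eq_of_irreducible_of_monic (minpoly.irreducible halg.isIntegral) hα'
        (minpoly.monic halg.isIntegral)
  have hw' : IsWeilNumber q 2 α' := ⟨hconj.2.1, by rw [← hconj.2.2]; exact hw.2⟩
  have hαT : ¬ IsTateNumber q α' := by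
    rintro ⟨k, hk, hk'⟩
    apply hαR
    apply mem_of_int R
    apply IsIntegral.of_pow hk
    rw [div_pow, hk', div_self (pow_ne_zero _ hq0)]
    exact isIntegral_one
  have hm' : IsRepeated X'.toSpecialFibre α' := by
    unfold IsRepeated mult at hm ⊢
    rwa [← hC1 α α' hconj, ← hC0 α α' hconj]
  -- the restriction is surjective in the second theory
  have hsurj : ∀ z' ∈ frobPart X'.toSpecialFibre 1 2 α',
      ∃ y' ∈ frobPart X'.toSpecialFibre 0 2 α', X'.res 0 y' = z' := fun z' hz' =>
    res_surj_of_no X' rfl hI' hαT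
      (fun v h1 h2 h3 => no_weight_two X' hNH hE hαT hm' hαR h1 h2 h3) hz'
  have hle' : finrank Ω' (frobPart X'.toSpecialFibre 1 2 α') ≤
      finrank Ω' ((frobPart X'.toSpecialFibre 0 2 α').map (X'.res 0)) := by
    apply Submodule.finrank_mono
    intro z' hz'
    obtain ⟨y', hy', hyz'⟩ := hsurj z' hz'
    exact ⟨y', hy', hyz'⟩
  have hrk' := finrank_map_add_ker (X'.res 0) (frobPart X'.toSpecialFibre 0 2 α')
  have hrk := finrank_map_add_ker (X.res 0) (frobPart X.toSpecialFibre 0 2 α)
  have hk1 := kerPart_le X hI hα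
  have hk2 := h2 α α' hconj hα
  have hk3 := le_kerPart X' hq1 hI' hαT hw'
  unfold kerPart at hk1 hk3
  have hc0 := hC0 α α' hconj
  have hc1 := hC1 α α' hconj
  have hmap : (frobPart X.toSpecialFibre 0 2 α).map (X.res 0) ≤
      frobPart X.toSpecialFibre 1 2 α := by
    rintro _ ⟨y', hy', rfl⟩
    exact res_frobPart X.toSpecialFibre 0 2 hy'
  have h5 : finrank Ω (frobPart X.toSpecialFibre 1 2 α) ≤
      finrank Ω ((frobPart X.toSpecialFibre 0 2 α).map (X.res 0)) := by
    rw [hc1]
    refine hle'.trans ?_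
    omega
  have hfull := Submodule.eq_of_le_of_finrank_le hmap h5
  rw [← hfull] at hz
  obtain ⟨y', hy', hyz'⟩ := hz
  exact ⟨y', hy', hyz'⟩

end final

end Pool.Agent.Helper812_WM
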