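import Pool.Agent.Helper812_WM.Exhaust

/-!
# Multiplicities of the Frobenius eigenvalues of weight two on `H^2`
-/

namespace Pool.Agent.Helper812_WM

universe u v

open Module Pool.Agent.Y143 Pool.Agent.X302.MW

section gen

variable {Ω : Type*} [Field Ω] {P : Type*} [AddCommGroup P] [Module Ω P] {Q : Type*}
  [AddCommGroup Q] [Module Ω Q]

lemma map_gen (f : P →ₗ[Ω] Q) (T : Module.End Ω P) (T' : Module.End Ω Q)
    (h : ∀ x, f (T x) = T' (f x)) {α : Ω} {x : P} (hx : x ∈ T.maxGenEigenspace α) :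
    f x ∈ T'.maxGenEigenspace α := by
  rw [Module.End.mem_maxGenEigenspace] at hx ⊢
  obtain ⟨k, hk⟩ := hx
  refine ⟨k, ?_⟩
  have h1 : ∀ (k : ℕ) (x : P), ((T' - α • (1 : Module.End Ω Q)) ^ k) (f x) =
      f (((T - α • (1 : Module.End Ω P)) ^ k) x) := by
    intro k
    induction k with
    | zero => intro x; rfl
    | succ k ih =>
      intro x
      have h3 : (T' - α • (1 : Module.End Ω Q)) (f x) = f ((T - α • (1 : Module.End Ω P)) x) := by
        show T' (f x) - α • f x = f (T x - α • x)
        rw [map_sub, map_smul, h]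
      rw [pow_succ, Module.End.mul_apply, h3, ih, pow_succ, Module.End.mul_apply]
  rw [h1, hk, map_zero]

/-- Generalized eigenvectors can be lifted through surjective equivariant maps. -/
lemma lift_gen [IsAlgClosed Ω] [FiniteDimensional Ω P] (f : P →ₗ[Ω] Q)
    (hf : Function.Surjective f) (T : Module.End Ω P) (T' : Module.End Ω Q)
    (h : ∀ x, f (T x) = T' (f x)) {α : Ω} {y : Q} (hy : y ∈ T'.maxGenEigenspace α) :
    ∃ x ∈ T.maxGenEigenspace α, f x = y := by
  obtain ⟨x0, rfl⟩ := hf y
  have h1 : x0 ∈ ⨆ β, T.maxGenEigenspace β := by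
    rw [Module.End.iSup_maxGenEigenspace_eq_top]
    exact Submodule.mem_top
  obtain ⟨a, ha, hxa⟩ : ∃ a ∈ T.maxGenEigenspace α,
      f x0 - f a ∈ ⨆ β ≠ α, T'.maxGenEigenspace β := by
    refine Submodule.iSup_induction (fun β => T.maxGenEigenspace β)
      (motive := fun x => ∃ a ∈ T.maxGenEigenspace α,
        f x - f a ∈ ⨆ β ≠ α, T'.maxGenEigenspace β) h1 ?_ ?_ ?_
    · intro β x hx
      by_cases hβ : β = α
      · subst hβ
        exact ⟨x, hx, by rw [sub_self]; exact Submodule.zero_mem _⟩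
      · refine ⟨0, Submodule.zero_mem _, ?_⟩
        rw [map_zero, sub_zero]
        exact Submodule.mem_iSup_of_mem β (Submodule.mem_iSup_of_mem hβ (map_gen f T T' h hx))
    · exact ⟨0, Submodule.zero_mem _, by rw [sub_self]; exact Submodule.zero_mem _⟩
    · rintro x y ⟨a, ha, hxa⟩ ⟨b, hb, hyb⟩
      refine ⟨a + b, Submodule.add_mem _ ha hb, ?_⟩
      rw [map_add, map_add, add_sub_add_comm]
      exact Submodule.add_mem _ hxa hyb
  refine ⟨a, ha, ?_⟩
  have h2 : f x0 - f a ∈ T'.maxGenEigenspace α := Submodule.sub_mem _ hy (map_gen f T T' h ha)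
  have h3 := Submodule.disjoint_def.1 (T'.independent_maxGenEigenspace α) _ h2 hxa
  rw [sub_eq_zero] at h3
  exact h3.symm

lemma finrank_gen_le_of_inj [FiniteDimensional Ω Q] (f : P →ₗ[Ω] Q)
    (T : Module.End Ω P) (T' : Module.End Ω Q)
    (h : ∀ x, f (T x) = T' (f x)) {α : Ω}
    (hf : ∀ x ∈ T.maxGenEigenspace α, f x = 0 → x = 0) :
    finrank Ω (T.maxGenEigenspace α) ≤ finrank Ω (T'.maxGenEigenspace α) := by
  let g : T.maxGenEigenspace α →ₗ[Ω] T'.maxGenEigenspace α :=
    (f.domRestrict (T.maxGenEigenspace α)).codRestrict _ (fun x => map_gen f T T' h x.2)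
  apply LinearMap.finrank_le_finrank_of_injective (f := g)
  rw [← LinearMap.ker_eq_bot, LinearMap.ker_eq_bot']
  intro x hx
  exact Subtype.ext (hf x x.2 (congrArg Subtype.val hx))

lemma finrank_gen_le_of_surj [IsAlgClosed Ω] [FiniteDimensional Ω P] (f : P →ₗ[Ω] Q)
    (hf : Function.Surjective f) (T : Module.End Ω P) (T' : Module.End Ω Q)
    (h : ∀ x, f (T x) = T' (f x)) (α : Ω) :
    finrank Ω (T'.maxGenEigenspace α) ≤ finrank Ω (T.maxGenEigenspace α) := by
  let g : T.maxGenEigenspace α →ₗ[Ω] T'.maxGenEigenspace α :=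
    (f.domRestrict (T.maxGenEigenspace α)).codRestrict _ (fun x => map_gen f T T' h x.2)
  apply LinearMap.finrank_le_finrank_of_surjective (f := g)
  rintro ⟨y, hy⟩
  obtain ⟨x, hx, rfl⟩ := lift_gen f hf T T' h hy
  exact ⟨⟨x, hx⟩, rfl⟩

end gen

variable {Ω : Type u} [Field Ω] [CharZero Ω] {Γ : Type} {n q : ℕ}

section special

variable (X : SpecialFibre.{u, v} Ω Γ n q)

/-- The part of eigenvalue `α` of the kernel of the restriction on `H^2` of the components. -/
def kerPart (α : Ω) : Submodule Ω (X.H 0) :=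
  frobPart X 0 2 α ⊓ LinearMap.ker (X.res 0)

/-- The classes in `H^2` of the components killed by the restriction are cocycles. -/
lemma single_cocycle {y : X.H 0} (hy : y ∈ X.gr 0 2) (h : X.res 0 y = 0) :
    (Pi.single 0 y : X.C) ∈ X.cocycles 0 2 := by
  have hcol : InColumn 0 0 := ⟨by simp, ⟨0, by simp⟩⟩
  refine ⟨X.single_mem hcol (by simpa using hy), ?_⟩
  rw [SetLike.mem_coe, LinearMap.mem_ker]
  funext b
  rw [X.diff_apply]
  by_cases hc : InColumn (0 + 1) b
  · rw [X.cut_of hc, Pi.add_apply, X.gysC_apply, Pi.single_eq_of_ne (by omega), map_zero,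
      add_zero]
    cases b with
    | zero => rfl
    | succ b =>
      rw [X.resC_succ]
      by_cases hb : b = 0
      · subst hb
        rw [Pi.single_eq_same, h]
        rfl
      · rw [Pi.single_eq_of_ne hb, map_zero]
        rfl
  · rw [X.cut_of_not hc]
    rfl

/-- The non-Tate part of the coboundaries vanishes. -/
lemma cob_zero [IsAlgClosed Ω] (hI : HasIntegralFrobenius X) {α : Ω}
    (hα : ¬ IsTateNumber q α) {x : X.C}
    (hgen : x ∈ Module.End.maxGenEigenspace (X.actC 0 X.frob) α) (hb : x ∈ X.coboundaries 0 2) :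
    x = 0 := by
  have hq : (q : Ω) ≠ 0 := Nat.cast_ne_zero.2 X.q_ne
  obtain ⟨v, hvE, hvg, hv⟩ := cob_gen X 0 2 hgen hb
  have hv0 : v = 0 := by
    funext a
    by_cases hc : InColumn (0 - 1) a
    · have h1 := (hvE a).1
      have hc1 := hc.1
      have hc2 := hc.2
      rw [show |(0 : ℤ) - 1| = 1 by norm_num] at hc1
      rcases Nat.lt_or_ge a 2 with ha | ha
      · have ha1 : a = 1 := by omega
        subst ha1
        by_contra hne
        have h3 := comp_gen X (0 - 1) hvg 1
        rw [show (((1 : ℕ) : ℤ) - (0 - 1)) / 2 = 1 by norm_num, zpow_one] at h3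
        rw [show (2 : ℤ) + (0 - 1) - ((1 : ℕ) : ℤ) = 0 by norm_num] at h1
        obtain ⟨-, k, hk, hk'⟩ := h0_root X hI 1 ⟨h1, h3⟩ hne
        exact hα (isTate_of_root hq hk hk')
      · rw [X.gr_eq_bot a _ (Or.inl (by omega)), Submodule.mem_bot] at h1
        exact h1
    · exact (hvE a).2 hc
  rw [← hv, hv0, map_zero]

/-- The non-Tate part of the cocycles. -/
lemma cocycle_zero (hI : HasIntegralFrobenius X) {α : Ω}
    (hα : ¬ IsTateNumber q α) {x : X.C} (hx : x ∈ X.cocycles 0 2)
    (hgen : x ∈ Module.End.maxGenEigenspace (X.actC 0 X.frob) α) :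
    x 0 ∈ kerPart X α ∧ ∀ a, a ≠ 0 → x a = 0 := by
  have hq : (q : Ω) ≠ 0 := Nat.cast_ne_zero.2 X.q_ne
  have hz : ∀ a, a ≠ 0 → x a = 0 := by
    intro a ha
    by_cases hc : InColumn 0 a
    · have h1 := (hx.1 a).1
      have hc2 := hc.2
      by_cases ha2 : a = 2
      · subst ha2
        by_contra hne
        have h3 := comp_gen X 0 hgen 2
        rw [show (((2 : ℕ) : ℤ) - 0) / 2 = 1 by norm_num, zpow_one] at h3
        rw [show (2 : ℤ) + 0 - ((2 : ℕ) : ℤ) = 0 by norm_num] at h1
        obtain ⟨-, k, hk, hk'⟩ := h0_root X hI 2 ⟨h1, h3⟩ hne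
        exact hα (isTate_of_root hq hk hk')
      · rw [X.gr_eq_bot a _ (Or.inl (by omega)), Submodule.mem_bot] at h1
        exact h1
    · exact (hx.1 a).2 hc
  refine ⟨⟨⟨?_, ?_⟩, ?_⟩, hz⟩
  · have := (hx.1 0).1
    rwa [show (2 : ℤ) + 0 - ((0 : ℕ) : ℤ) = 2 by norm_num] at this
  · have h4 := comp_gen X 0 hgen 0
    rwa [show (((0 : ℕ) : ℤ) - 0) / 2 = 0 by norm_num, zpow_zero, inv_one, one_mul] at h4
  · have h5 : X.diff 0 x = 0 := hx.2
    have h6 := congrFun h5 1
    have hcol : InColumn (0 + 1) 1 := ⟨by norm_num, ⟨0, by norm_num⟩⟩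
    rw [X.diff_apply, X.cut_of hcol, Pi.add_apply, X.gysC_apply] at h6
    have h7 : x (1 + 1) = 0 := hz 2 (by norm_num)
    rw [h7, map_zero, add_zero] at h6
    exact h6

end special

/-- The Frobenius on `W_w`. -/
noncomputable def wact (X : SemistableModel.{u, v} Ω Γ n q) (i : ℕ) (w : ℤ) :
    Module.End Ω (X.W i w) := (X.actV i X.frob).restrict (W_stable X i w)

/-- The Frobenius on the cocycles. -/
noncomputable def zact (X : SemistableModel.{u, v} Ω Γ n q) (r w : ℤ) :
    Module.End Ω (X.cocycles r w) := (X.actC r X.frob).restrict (Z_stable X r w)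

lemma emap_act (X : SemistableModel.{u, v} Ω Γ n q) (i : ℕ) (w : ℤ) (v : X.W i w) :
    emap X i w (wact X i w v) = eact X (i - w) w (emap X i w v) :=
  Subtype.ext (gmap_act X i w v)

lemma zmap_act (X : SemistableModel.{u, v} Ω Γ n q) (r w : ℤ) (x : X.cocycles r w) :
    zmap X r w (zact X r w x) = eact X r w (zmap X r w x) :=
  Subtype.ext (qact_mkQ X r w x).symm

section generic

variable [IsAlgClosed Ω] (X : SemistableModel.{u, v} Ω Γ n q)

/-- The kernel of the restriction embeds in `H^2` of the generic fibre. -/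
theorem kerPart_le (hI : HasIntegralFrobenius X.toSpecialFibre) {α : Ω}
    (hα : ¬ IsTateNumber q α) :
    finrank Ω (kerPart X.toSpecialFibre α) ≤ genMult X 2 α := by
  have e : ((2 : ℕ) : ℤ) - 2 = 0 := by norm_num
  have hsurj := finrank_gen_le_of_surj (emap X 2 2) (emap_surj X 2 2)
    (wact X 2 2) (eact X (((2 : ℕ) : ℤ) - 2) 2)
    (emap_act X 2 2) α
  have hinj := finrank_gen_le_of_inj (X.W 2 2).subtype
    (wact X 2 2) (X.actV 2 X.frob) (fun x => rfl) (α := α)
    (fun x _ h => Subtype.ext h)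
  refine le_trans ?_ (hsurj.trans hinj)
  rw [e]
  -- the map to the `E_2` term
  let s : kerPart X.toSpecialFibre α →ₗ[Ω] (eact X 0 2).maxGenEigenspace α :=
    LinearMap.codRestrict _
      ((((X.coboundaries 0 2).mkQ ∘ₗ LinearMap.single Ω (fun a => X.H a) 0 ∘ₗ
        (kerPart X.toSpecialFibre α).subtype)).codRestrict (E2 X 0 2)
        (fun y => ⟨_, single_cocycle X.toSpecialFibre y.2.1.1 y.2.2, rfl⟩))
      (fun y => by
        have hgen := single_gen X.toSpecialFibre 0 0 rfl y.2.1.2
        have h1 : (⟨Pi.single 0 (y : X.H 0), single_cocycle X.toSpecialFibre y.2.1.1 y.2.2⟩ :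
            X.cocycles 0 2) ∈
            (zact X 0 2).maxGenEigenspace α := by
          rw [Module.End.mem_maxGenEigenspace] at hgen ⊢
          obtain ⟨k, hk⟩ := hgen
          refine ⟨k, Subtype.ext ?_⟩
          have h2 : ∀ (k : ℕ) (x : X.cocycles 0 2),
              ((((zact X 0 2) -
                α • (1 : Module.End Ω (X.cocycles 0 2))) ^ k) x : X.C) =
              ((X.actC 0 X.frob - α • (1 : Module.End Ω X.C)) ^ k) x := by
            intro k
            induction k with
            | zero => intro x; rfl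
            | succ k ih =>
              intro x
              rw [pow_succ, Module.End.mul_apply, ih, pow_succ, Module.End.mul_apply]
              rfl
          rw [h2]
          exact hk
        have h2 := map_gen (zmap X 0 2) _ (eact X 0 2) (zmap_act X 0 2) h1
        exact h2)
  apply LinearMap.finrank_le_finrank_of_injective (f := s)
  rw [injective_iff_map_eq_zero]
  intro y hy
  have h1 : (X.coboundaries 0 2).mkQ (Pi.single 0 (y : X.H 0) : X.C) = 0 :=
    congrArg Subtype.val (congrArg Subtype.val hy)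
  rw [Submodule.mkQ_apply, Submodule.Quotient.mk_eq_zero] at h1
  have h2 := cob_zero X.toSpecialFibre hI hα (single_gen X.toSpecialFibre 0 0 rfl y.2.1.2) h1
  have h3 := congrFun h2 0
  rw [Pi.single_eq_same] at h3
  exact Subtype.ext h3

omit [IsAlgClosed Ω] in
lemma exists_weight (i : ℕ) {v : X.V i} (hv : v ≠ 0) :
    ∃ w, v ∈ X.W i w ∧ v ∉ X.W i (w - 1) := by
  by_contra hcon
  push Not at hcon
  obtain ⟨w0, hw0⟩ := X.W_bot i
  obtain ⟨w1, hw1⟩ := X.W_top i
  have key : ∀ k : ℕ, v ∈ X.W i (w1 - k) := by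
    intro k
    induction k with
    | zero => rw [Nat.cast_zero, sub_zero, hw1]; exact Submodule.mem_top
    | succ k ih =>
      have := hcon _ ih
      rwa [show w1 - (k : ℤ) - 1 = w1 - ((k + 1 : ℕ) : ℤ) by push_cast; ring] at this
  have h1 := X.W_mono i (show w1 - ((w1 - w0).toNat : ℤ) ≤ w0 by omega) (key _)
  rw [hw0, Submodule.mem_bot] at h1
  exact hv h1

omit [IsAlgClosed Ω] in
/-- The generalized eigenvectors for an eigenvalue of weight `2` lie in `W_2` and not in `W_1`. -/
lemma gen_weight (hq : 1 < q) (i : ℕ) {α : Ω} {w : ℤ} (hα : IsWeilNumber q w α) {v : X.V i}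
    (hv : v ∈ (X.actV i X.frob).maxGenEigenspace α) (hv0 : v ≠ 0) :
    v ∈ X.W i w ∧ v ∉ X.W i (w - 1) := by
  obtain ⟨w', h1, h2⟩ := exists_weight X i hv0
  obtain ⟨y, hy, hy', hyα⟩ := exists_eigen_mod (X.actV i X.frob) α (Z := X.W i w')
    (W_stable X i w') h1 h2 hv
  obtain ⟨z, hz, hz0, hzα⟩ := eigen_of_graded X i w' hy hy' hyα
  have := weil_unique hq (X.weil_E₁ hz.1 hz0 hzα) hα
  subst this
  exact ⟨h1, h2⟩

/-- The transcendental part of `H^2` of the generic fibre embeds in the kernel of the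
restriction. -/
theorem le_kerPart (hq : 1 < q) (hI : HasIntegralFrobenius X.toSpecialFibre) {α : Ω}
    (hα : ¬ IsTateNumber q α) (hw : IsWeilNumber q 2 α) :
    genMult X 2 α ≤ finrank Ω (kerPart X.toSpecialFibre α) := by
  have e : ((2 : ℕ) : ℤ) - 2 = 0 := by norm_num
  -- to the generalized eigenspace on `W_2`
  have h1 : genMult X 2 α ≤
      finrank Ω ((wact X 2 2).maxGenEigenspace α) := by
    let g : (X.actV 2 X.frob).maxGenEigenspace α →ₗ[Ω]
        (wact X 2 2).maxGenEigenspace α :=
      LinearMap.codRestrict _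
        (((X.actV 2 X.frob).maxGenEigenspace α).subtype.codRestrict (X.W 2 2) (fun v => by
          by_cases hv : (v : X.V 2) = 0
          · show (v : X.V 2) ∈ X.W 2 2
            rw [hv]
            exact Submodule.zero_mem _
          · exact (gen_weight X hq 2 hw v.2 hv).1))
        (fun v => by
          obtain ⟨k, hk⟩ := (Module.End.mem_maxGenEigenspace _ _ _).1 v.2
          rw [Module.End.mem_maxGenEigenspace]
          refine ⟨k, Subtype.ext ?_⟩
          have h2 : ∀ (k : ℕ) (x : X.W 2 2),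
              ((((wact X 2 2) -
                α • (1 : Module.End Ω (X.W 2 2))) ^ k) x : X.V 2) =
              ((X.actV 2 X.frob - α • (1 : Module.End Ω (X.V 2))) ^ k) x := by
            intro k
            induction k with
            | zero => intro x; rfl
            | succ k ih =>
              intro x
              rw [pow_succ, Module.End.mul_apply, ih, pow_succ, Module.End.mul_apply]
              rfl
          rw [h2]
          exact hk)
    apply LinearMap.finrank_le_finrank_of_injective (f := g)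
    intro v w hvw
    exact Subtype.ext (congrArg (fun x => ((x : X.W 2 2) : X.V 2)) (congrArg Subtype.val hvw))
  -- to the `E_2` term
  have h2 : finrank Ω ((wact X 2 2).maxGenEigenspace α) ≤
      finrank Ω ((eact X (((2 : ℕ) : ℤ) - 2) 2).maxGenEigenspace α) := by
    apply finrank_gen_le_of_inj (emap X 2 2) _ _ (emap_act X 2 2)
    intro v hv h0
    by_contra hne
    rw [emap_zero] at h0
    have h3 := map_gen (X.W 2 2).subtype _ (X.actV 2 X.frob) (fun x => rfl) hv
    exact (gen_weight X hq 2 hw h3 (fun h => hne (Subtype.ext h))).2 h0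
  rw [e] at h2
  -- to the cocycles
  have h3 := finrank_gen_le_of_surj (zmap X 0 2) (zmap_surj X 0 2)
    (zact X 0 2) (eact X 0 2)
    (zmap_act X 0 2) α
  refine h1.trans (h2.trans (h3.trans ?_))
  -- to the kernel of the restriction
  have h4 : ∀ x ∈ (zact X 0 2).maxGenEigenspace α,
      (x : X.C) 0 ∈ kerPart X.toSpecialFibre α ∧ ∀ a, a ≠ 0 → (x : X.C) a = 0 := by
    intro x hx
    exact cocycle_zero X.toSpecialFibre hI hα x.2
      (map_gen (X.cocycles 0 2).subtype _ (X.actC 0 X.frob) (fun x => rfl) hx)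
  let g : (zact X 0 2).maxGenEigenspace α →ₗ[Ω]
      kerPart X.toSpecialFibre α :=
    LinearMap.codRestrict _ (LinearMap.proj (φ := fun a => X.H a) 0 ∘ₗ
      (X.cocycles 0 2).subtype ∘ₗ
      ((zact X 0 2).maxGenEigenspace α).subtype)
      (fun x => (h4 x x.2).1)
  apply LinearMap.finrank_le_finrank_of_injective (f := g)
  rw [injective_iff_map_eq_zero]
  intro x hx
  apply Subtype.ext
  apply Subtype.ext
  funext a
  by_cases ha : a = 0
  · subst ha
    exact congrArg Subtype.val hx
  · exact (h4 x x.2).2 a ha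

end generic

end Pool.Agent.Helper812_WM
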